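import Mathlib

set_option autoImplicit false

namespace Pool.Agent.Helper54.PolyAnalysis

open PowerSeries Finset

/-- absolute convergence of a complex power series at radius `x`. -/
def Conv (F : ℂ⟦X⟧) (x : ℝ) : Prop := Summable fun n => ‖coeff n F‖ * x ^ n

noncomputable def ev (F : ℂ⟦X⟧) (w : ℂ) : ℂ := ∑' n, coeff n F * w ^ n

theorem conv_iff (F : ℂ⟦X⟧) (w : ℂ) :
    Conv F ‖w‖ ↔ Summable fun n => ‖coeff n F * w ^ n‖ := by
  unfold Conv
  simp only [norm_mul, norm_pow]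

theorem mul_aux (F G : ℂ⟦X⟧) (w : ℂ) (n : ℕ) :
    coeff n (F * G) * w ^ n =
      ∑ kl ∈ antidiagonal n, (coeff kl.1 F * w ^ kl.1) * (coeff kl.2 G * w ^ kl.2) := by
  rw [coeff_mul, Finset.sum_mul]
  refine Finset.sum_congr rfl fun kl hkl => ?_
  rw [← mem_antidiagonal.mp hkl, pow_add]
  ring

theorem conv_mul {F G : ℂ⟦X⟧} {x : ℝ} (hx : 0 ≤ x) (hF : Conv F x) (hG : Conv G x) :
    Conv (F * G) x := by
  obtain ⟨w, rfl⟩ : ∃ w : ℂ, ‖w‖ = x := ⟨(x : ℂ), by simp [abs_of_nonneg hx]⟩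
  have hF' := (conv_iff F w).mp hF
  have hG' := (conv_iff G w).mp hG
  refine (conv_iff (F * G) w).mpr ?_
  have := summable_norm_sum_mul_antidiagonal_of_summable_norm hF' hG'
  refine this.congr fun n => ?_
  rw [mul_aux]

theorem ev_mul {F G : ℂ⟦X⟧} {w : ℂ} (hF : Conv F ‖w‖) (hG : Conv G ‖w‖) :
    ev (F * G) w = ev F w * ev G w := by
  rw [conv_iff] at hF hG
  unfold ev
  simp only [mul_aux]
  exact (tsum_mul_tsum_eq_tsum_sum_antidiagonal_of_summable_norm hF hG).symm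

theorem conv_poly (P : Polynomial ℂ) (x : ℝ) : Conv (P : ℂ⟦X⟧) x := by
  unfold Conv
  apply summable_of_ne_finset_zero (s := range (P.natDegree + 1))
  intro n hn
  rw [mem_range, not_lt] at hn
  rw [Polynomial.coeff_coe, Polynomial.coeff_eq_zero_of_natDegree_lt (by omega)]
  simp

theorem ev_poly (P : Polynomial ℂ) (w : ℂ) : ev (P : ℂ⟦X⟧) w = P.eval w := by
  unfold ev
  rw [tsum_eq_sum (s := range (P.natDegree + 1)), Polynomial.eval_eq_sum_range]
  · simp [Polynomial.coeff_coe]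
  · intro n hn
    rw [mem_range, not_lt] at hn
    rw [Polynomial.coeff_coe, Polynomial.coeff_eq_zero_of_natDegree_lt (by omega)]
    simp

/-- the series `(X - z)⁻¹`. -/
noncomputable def invLin (z : ℂ) : ℂ⟦X⟧ := PowerSeries.mk fun n => -(z⁻¹) ^ (n + 1)

theorem invLin_mul {z : ℂ} (hz : z ≠ 0) :
    invLin z * ((Polynomial.X - Polynomial.C z : Polynomial ℂ) : ℂ⟦X⟧) = 1 := by
  rw [Polynomial.coe_sub, Polynomial.coe_X, Polynomial.coe_C, mul_sub]
  ext n
  rcases n with _ | n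
  · simp [invLin, hz]
  · rw [map_sub, coeff_succ_mul_X, coeff_mul_C]
    simp only [invLin, coeff_mk, coeff_one]
    simp only [Nat.add_eq_zero_iff, one_ne_zero, and_false, ↓reduceIte]
    rw [pow_succ _ (n + 1)]
    field_simp
    ring

theorem conv_invLin {z : ℂ} {x : ℝ} (hx : 0 ≤ x) (hz : x < ‖z‖) : Conv (invLin z) x := by
  unfold Conv invLin
  have hz0 : 0 < ‖z‖ := lt_of_le_of_lt hx hz
  have : (fun n : ℕ => ‖coeff n (PowerSeries.mk fun n => -(z⁻¹) ^ (n + 1))‖ * x ^ n) =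
      fun n : ℕ => ‖z‖⁻¹ * (x / ‖z‖) ^ n := by
    funext n
    simp only [coeff_mk, norm_neg, norm_pow, norm_inv]
    rw [pow_succ, div_pow, inv_pow]
    field_simp
  rw [this]
  apply Summable.mul_left
  apply summable_geometric_of_lt_one (by positivity)
  rw [div_lt_one hz0]
  exact hz

/-- a rational series converges absolutely below the smallest modulus of the poles. -/
theorem conv_rational {x : ℝ} (hx : 0 ≤ x) :
    ∀ (d : ℕ) (Q : Polynomial ℂ), Q.natDegree = d → Q ≠ 0 → (∀ z, Q.IsRoot z → x < ‖z‖) →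
    ∀ (F : ℂ⟦X⟧), Conv ((Q : ℂ⟦X⟧) * F) x → Conv F x := by
  intro d
  induction d with
  | zero =>
    intro Q hd hQ _ F hc
    obtain ⟨a, rfl⟩ : ∃ a, Q = Polynomial.C a := ⟨_, Polynomial.eq_C_of_natDegree_eq_zero hd⟩
    have ha : a ≠ 0 := by
      rintro rfl
      simp at hQ
    have : F = ((Polynomial.C a⁻¹ : Polynomial ℂ) : ℂ⟦X⟧) *
        (((Polynomial.C a : Polynomial ℂ) : ℂ⟦X⟧) * F) := by
      rw [← mul_assoc, ← Polynomial.coe_mul, ← Polynomial.C_mul, inv_mul_cancel₀ ha]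
      simp
    rw [this]
    exact conv_mul hx (conv_poly _ _) hc
  | succ d ih =>
    intro Q hd hQ hr F hc
    obtain ⟨z, hz⟩ : ∃ z, Q.IsRoot z := by
      apply IsAlgClosed.exists_root
      rw [Polynomial.degree_eq_natDegree hQ, hd]
      exact_mod_cast Nat.succ_ne_zero d
    obtain ⟨Q1, rfl⟩ := Polynomial.dvd_iff_isRoot.mpr hz
    have hxz := hr z hz
    have hz0 : z ≠ 0 := by
      rintro rfl
      simp at hxz
      linarith
    have hQ1 : Q1 ≠ 0 := right_ne_zero_of_mul hQ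
    have hd1 : Q1.natDegree = d := by
      rw [Polynomial.natDegree_mul (Polynomial.X_sub_C_ne_zero z) hQ1,
        Polynomial.natDegree_X_sub_C] at hd
      omega
    have h1 : Conv F x ↔ Conv (((Polynomial.X - Polynomial.C z : Polynomial ℂ) : ℂ⟦X⟧) * F) x := by
      constructor
      · exact conv_mul hx (conv_poly _ _)
      · intro h
        have : F = invLin z * (((Polynomial.X - Polynomial.C z : Polynomial ℂ) : ℂ⟦X⟧) * F) := by
          rw [← mul_assoc, invLin_mul hz0, one_mul]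
        rw [this]
        exact conv_mul hx (conv_invLin hx hxz) h
    rw [h1]
    apply ih Q1 hd1 hQ1
    · intro y hy
      apply hr
      rw [Polynomial.IsRoot, Polynomial.eval_mul, hy, mul_zero]
    · rw [← mul_assoc, ← Polynomial.coe_mul, mul_comm Q1]
      exact hc

theorem ev_rational {Q P : Polynomial ℂ} {F : ℂ⟦X⟧} {w : ℂ} (hQ : Q ≠ 0)
    (hr : ∀ z, Q.IsRoot z → ‖w‖ < ‖z‖) (h : (Q : ℂ⟦X⟧) * F = (P : ℂ⟦X⟧)) :
    Conv F ‖w‖ ∧ Q.eval w * ev F w = P.eval w := by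
  have hc : Conv F ‖w‖ := conv_rational (norm_nonneg w) _ Q rfl hQ hr F (by rw [h]; exact conv_poly _ _)
  refine ⟨hc, ?_⟩
  rw [← ev_poly, ← ev_poly, ← ev_mul (conv_poly _ _) hc, h]


/-- the inclusion of the reals in the complex numbers -/
abbrev toC : ℝ →+* ℂ := Complex.ofRealHom

theorem real_rational {Q P : Polynomial ℝ} {F : ℝ⟦X⟧} {x : ℝ} (hx : 0 ≤ x) (hQ : Q ≠ 0)
    (hr : ∀ z : ℂ, (Q.map toC).IsRoot z → x < ‖z‖) (h : (Q : ℝ⟦X⟧) * F = (P : ℝ⟦X⟧)) :
    (Summable fun n => ‖coeff n F‖ * x ^ n) ∧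
    (∀ w : ℂ, ‖w‖ = x →
      (Q.map toC).eval w * (∑' n, ((coeff n F : ℝ) : ℂ) * w ^ n) = (P.map toC).eval w) ∧
    Q.eval x * (∑' n, coeff n F * x ^ n) = P.eval x := by
  have hmap : ((Q.map toC : Polynomial ℂ) : ℂ⟦X⟧) * PowerSeries.map toC F =
      ((P.map toC : Polynomial ℂ) : ℂ⟦X⟧) := by
    rw [Polynomial.polynomial_map_coe, Polynomial.polynomial_map_coe, ← map_mul, h]
  have hQ' : Q.map toC ≠ 0 := by
    rwa [Ne, Polynomial.map_eq_zero]
  have key : ∀ w : ℂ, ‖w‖ = x → Conv (PowerSeries.map toC F) x ∧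
      (Q.map toC).eval w * (∑' n, ((coeff n F : ℝ) : ℂ) * w ^ n) = (P.map toC).eval w := by
    intro w hw
    subst hw
    obtain ⟨h1, h2⟩ := ev_rational hQ' hr hmap
    refine ⟨h1, ?_⟩
    rw [← h2]
    unfold ev
    simp only [PowerSeries.coeff_map]
    rfl
  have hw : ‖(x : ℂ)‖ = x := by simp [abs_of_nonneg hx]
  obtain ⟨h1, h2⟩ := key x hw
  refine ⟨?_, fun w hw => (key w hw).2, ?_⟩
  · unfold Conv at h1
    refine h1.congr fun n => ?_
    rw [PowerSeries.coeff_map]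
    simp
  · apply Complex.ofReal_injective
    have e1 : (Q.map toC).eval (x : ℂ) = ((Q.eval x : ℝ) : ℂ) := by
      rw [Polynomial.eval_map]
      exact Polynomial.eval₂_at_apply toC x
    have e2 : (P.map toC).eval (x : ℂ) = ((P.eval x : ℝ) : ℂ) := by
      rw [Polynomial.eval_map]
      exact Polynomial.eval₂_at_apply toC x
    rw [e1, e2] at h2
    rw [← h2]
    push_cast
    rfl

theorem eval_ofReal (Q : Polynomial ℝ) (x : ℝ) :
    (Q.map toC).eval (x : ℂ) = ((Q.eval x : ℝ) : ℂ) := by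
  rw [Polynomial.eval_map]
  exact Polynomial.eval₂_at_apply toC x

/-- Pringsheim-type step: if the coefficients are nonnegative then the modulus of a dominant pole
is a pole. -/
theorem pringsheim {Q P : Polynomial ℝ} {F : ℝ⟦X⟧} (hF : ∀ n, 0 ≤ coeff n F) (hQ : Q ≠ 0)
    {z0 : ℂ} (hz0 : (Q.map toC).IsRoot z0)
    (hmin : ∀ z : ℂ, (Q.map toC).IsRoot z → ‖z0‖ ≤ ‖z‖) (hpos : 0 < ‖z0‖)
    (h : (Q : ℝ⟦X⟧) * F = (P : ℝ⟦X⟧)) (hP : (P.map toC).eval z0 ≠ 0) : Q.eval ‖z0‖ = 0 := by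
  set ρ := ‖z0‖ with hρ
  have hineq : ∀ r : ℝ, 0 ≤ r → r < 1 →
      ‖(P.map toC).eval ((r : ℂ) * z0)‖ * ‖Q.eval (r * ρ)‖ ≤
      ‖(Q.map toC).eval ((r : ℂ) * z0)‖ * ‖P.eval (r * ρ)‖ := by
    intro r hr0 hr1
    have hx : 0 ≤ r * ρ := by positivity
    have hlt : r * ρ < ρ := by nlinarith
    obtain ⟨h1, h2, h3⟩ := real_rational hx hQ (fun z hz => lt_of_lt_of_le hlt (hmin z hz)) h
    have hw : ‖(r : ℂ) * z0‖ = r * ρ := by
      rw [norm_mul, Complex.norm_real, Real.norm_of_nonneg hr0]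
    have h4 := h2 _ hw
    rw [← h4, ← h3, norm_mul, norm_mul]
    have hle : ‖∑' n, ((coeff n F : ℝ) : ℂ) * ((r : ℂ) * z0) ^ n‖ ≤
        ‖∑' n, coeff n F * (r * ρ) ^ n‖ := by
      have hterm : ∀ n, ‖((coeff n F : ℝ) : ℂ) * ((r : ℂ) * z0) ^ n‖ = coeff n F * (r * ρ) ^ n := by
        intro n
        rw [norm_mul, norm_pow, hw, Complex.norm_real, Real.norm_of_nonneg (hF n)]
      have hs : Summable fun n => ‖((coeff n F : ℝ) : ℂ) * ((r : ℂ) * z0) ^ n‖ := by
        refine h1.congr fun n => ?_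
        rw [hterm, Real.norm_of_nonneg (hF n)]
      refine (norm_tsum_le_tsum_norm hs).trans ?_
      rw [tsum_congr hterm]
      exact le_abs_self _
    have := mul_le_mul_of_nonneg_left hle
      (mul_nonneg (norm_nonneg ((Q.map toC).eval ((r : ℂ) * z0))) (norm_nonneg (Q.eval (r * ρ))))
    calc _ = ‖(Q.map toC).eval ((r : ℂ) * z0)‖ * ‖Q.eval (r * ρ)‖ *
          ‖∑' n, ((coeff n F : ℝ) : ℂ) * ((r : ℂ) * z0) ^ n‖ := by ring
      _ ≤ _ := this
      _ = _ := by ring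
  have hlim : ‖(P.map toC).eval (((1 : ℝ) : ℂ) * z0)‖ * ‖Q.eval (1 * ρ)‖ ≤
      ‖(Q.map toC).eval (((1 : ℝ) : ℂ) * z0)‖ * ‖P.eval (1 * ρ)‖ := by
    have hmem : Set.Icc (0 : ℝ) 1 ⊆ {r : ℝ | ‖(P.map toC).eval ((r : ℂ) * z0)‖ * ‖Q.eval (r * ρ)‖ ≤
        ‖(Q.map toC).eval ((r : ℂ) * z0)‖ * ‖P.eval (r * ρ)‖} := by
      rw [← closure_Ico (zero_ne_one)]
      apply closure_minimal
      · intro r hr
        exact hineq r hr.1 hr.2
      · apply isClosed_le
        · fun_prop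
        · fun_prop
    exact hmem ⟨zero_le_one, le_refl 1⟩
  rw [Complex.ofReal_one, one_mul, one_mul, hz0, norm_zero, zero_mul] at hlim
  have h5 : ‖Q.eval ρ‖ = 0 := by
    have : 0 < ‖(P.map toC).eval z0‖ := norm_pos_iff.mpr hP
    by_contra hne
    have h6 : 0 < ‖Q.eval ρ‖ := lt_of_le_of_ne (norm_nonneg _) (Ne.symm hne)
    nlinarith [mul_pos this h6]
  exact norm_eq_zero.mp h5

theorem coprime_case (t : ℕ → ℕ) (h1 : ∀ n, 1 ≤ n → 1 ≤ t n) (K : ℝ) (hK : 0 ≤ K)
    (hineq : ∀ n : ℕ, √(n : ℝ) * ∑ kl ∈ antidiagonal n, (t kl.1 : ℝ) * t kl.2 ≤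
      K * ((n : ℝ) + 2) * t (n + 2))
    (P Q : Polynomial ℝ) (hQ : Q ≠ 0) (hco : IsCoprime P Q)
    (h : (Q : ℝ⟦X⟧) * PowerSeries.mk (fun n => (t n : ℝ)) = (P : ℝ⟦X⟧)) : False := by
  set T : ℝ⟦X⟧ := PowerSeries.mk (fun n => (t n : ℝ)) with hT
  -- `Q` is not constant
  have hdeg : Q.natDegree ≠ 0 := by
    intro hd
    obtain ⟨a, rfl⟩ : ∃ a, Q = Polynomial.C a := ⟨_, Polynomial.eq_C_of_natDegree_eq_zero hd⟩
    have ha : a ≠ 0 := by
      rintro rfl
      simp at hQ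
    have hc := congrArg (PowerSeries.coeff (P.natDegree + 1)) h
    rw [Polynomial.coe_C, coeff_C_mul, Polynomial.coeff_coe,
      Polynomial.coeff_eq_zero_of_natDegree_lt (by omega), hT, coeff_mk] at hc
    have : (1 : ℝ) ≤ t (P.natDegree + 1) := by exact_mod_cast h1 (P.natDegree + 1) (by omega)
    rcases mul_eq_zero.mp hc with h2 | h2
    · exact ha h2
    · linarith
  have hQC : Q.map toC ≠ 0 := by rwa [Ne, Polynomial.map_eq_zero]
  obtain ⟨z1, hz1⟩ : ∃ z, (Q.map toC).IsRoot z := by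
    apply IsAlgClosed.exists_root
    rw [Polynomial.degree_map, Polynomial.degree_eq_natDegree hQ]
    exact_mod_cast hdeg
  obtain ⟨z0, hz0, hmin⟩ := Finset.exists_min_image (Q.map toC).roots.toFinset (fun z => ‖z‖)
    ⟨z1, by rw [Multiset.mem_toFinset, Polynomial.mem_roots hQC]; exact hz1⟩
  rw [Multiset.mem_toFinset, Polynomial.mem_roots hQC] at hz0
  have hmin' : ∀ z : ℂ, (Q.map toC).IsRoot z → ‖z0‖ ≤ ‖z‖ := by
    intro z hz
    apply hmin
    rw [Multiset.mem_toFinset, Polynomial.mem_roots hQC]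
    exact hz
  obtain ⟨a, b, hab⟩ := hco
  have hz0ne : z0 ≠ 0 := by
    rintro rfl
    have e0 : Q.eval 0 = 0 := by
      have := eval_ofReal Q 0
      rw [Complex.ofReal_zero, hz0] at this
      exact_mod_cast this.symm
    have e1 : P.eval 0 = 0 := by
      have hc := congrArg (PowerSeries.constantCoeff (R := ℝ)) h
      rw [map_mul] at hc
      rw [← PowerSeries.coeff_zero_eq_constantCoeff_apply,
        ← PowerSeries.coeff_zero_eq_constantCoeff_apply,
        ← PowerSeries.coeff_zero_eq_constantCoeff_apply, Polynomial.coeff_coe,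
        Polynomial.coeff_coe, Polynomial.coeff_zero_eq_eval_zero,
        Polynomial.coeff_zero_eq_eval_zero, e0, zero_mul] at hc
      exact hc.symm
    have := congrArg (Polynomial.eval 0) hab
    rw [Polynomial.eval_add, Polynomial.eval_mul, Polynomial.eval_mul, e0, e1] at this
    simp at this
  have hpos : 0 < ‖z0‖ := norm_pos_iff.mpr hz0ne
  have hPz : (P.map toC).eval z0 ≠ 0 := by
    intro hPz
    have := congrArg (fun R => (Polynomial.map toC R).eval z0) hab
    simp only [Polynomial.map_add, Polynomial.map_mul, Polynomial.eval_add, Polynomial.eval_mul,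
      hPz, Polynomial.map_one, Polynomial.eval_one] at this
    rw [hz0] at this
    simp at this
  have hnn : ∀ n, 0 ≤ coeff n T := by
    intro n
    rw [hT, coeff_mk]
    positivity
  have hQρ := pringsheim hnn hQ hz0 hmin' hpos h hPz
  set ρ := ‖z0‖ with hρ
  have hPρ : P.eval ρ ≠ 0 := by
    intro hPz
    have := congrArg (Polynomial.eval ρ) hab
    rw [Polynomial.eval_add, Polynomial.eval_mul, Polynomial.eval_mul, hPz, hQρ] at this
    simp at this
  -- the main inequality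
  have key : ∀ m : ℕ, 0 ≤ K * (-(Q.derivative.eval ρ * P.eval ρ)) - m * (ρ * P.eval ρ ^ 2) := by
    intro m
    set S : Polynomial ℝ := PowerSeries.trunc (m * m) (T ^ 2) with hS
    set E : Polynomial ℝ := Polynomial.C K * (Q * P.derivative - Q.derivative * P) -
      Polynomial.C (m : ℝ) * Polynomial.X * P ^ 2 +
      Polynomial.C (m : ℝ) * Polynomial.X * S * Q ^ 2 with hE
    set D : ℝ⟦X⟧ := PowerSeries.C K * PowerSeries.derivative ℝ T -
      PowerSeries.C (m : ℝ) * PowerSeries.X * T ^ 2 +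
      PowerSeries.C (m : ℝ) * PowerSeries.X * (S : ℝ⟦X⟧) with hD
    have hDE : ((Q ^ 2 : Polynomial ℝ) : ℝ⟦X⟧) * D = (E : ℝ⟦X⟧) := by
      have hd := congrArg (PowerSeries.derivative ℝ) h
      rw [Derivation.leibniz, PowerSeries.derivative_coe, PowerSeries.derivative_coe,
        smul_eq_mul, smul_eq_mul] at hd
      rw [hD, hE]
      push_cast
      linear_combination (PowerSeries.C K * (Q : ℝ⟦X⟧)) * hd -
        (PowerSeries.C K * (Polynomial.derivative Q : ℝ⟦X⟧)) * h -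
        (PowerSeries.C (m : ℝ) * PowerSeries.X * ((Q : ℝ⟦X⟧) * T + P)) * h
    have hDnn : ∀ n, 0 ≤ coeff n D := by
      intro n
      rw [hD, map_add, map_sub, coeff_C_mul, PowerSeries.coeff_derivative, mul_assoc, mul_assoc,
        coeff_C_mul, coeff_C_mul]
      rcases n with _ | n
      · rw [coeff_zero_X_mul, coeff_zero_X_mul]
        have := hnn (0 + 1)
        push_cast
        have h3 : 0 ≤ K * (coeff (0 + 1) T * (0 + 1)) := by positivity
        linarith
      · rw [coeff_succ_X_mul, coeff_succ_X_mul, Polynomial.coeff_coe, hS, PowerSeries.coeff_trunc]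
        split_ifs with hn
        · have := hnn (n + 1 + 1)
          have h3 : 0 ≤ K * (coeff (n + 1 + 1) T * ((n + 1 : ℕ) + 1)) := by positivity
          push_cast at h3 ⊢
          linarith
        · rw [not_lt] at hn
          have h4 := hineq n
          have hm : (m : ℝ) ≤ √(n : ℝ) := by
            apply Real.le_sqrt_of_sq_le
            have : ((m * m : ℕ) : ℝ) ≤ n := by exact_mod_cast hn
            push_cast at this
            nlinarith
          have h5 : coeff n (T ^ 2) = ∑ kl ∈ antidiagonal n, (t kl.1 : ℝ) * t kl.2 := by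
            rw [pow_two, coeff_mul]
            simp only [hT, coeff_mk]
          have h6 : 0 ≤ coeff n (T ^ 2) := by
            rw [h5]
            apply Finset.sum_nonneg
            intro kl _
            positivity
          have h7 : coeff (n + 1 + 1) T = t (n + 2) := by rw [hT, coeff_mk]
          rw [h7]
          rw [← h5] at h4
          have h8 := mul_le_mul_of_nonneg_right hm h6
          push_cast
          nlinarith
    have hEnn : ∀ x : ℝ, 0 ≤ x → x < ρ → 0 ≤ E.eval x := by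
      intro x hx0 hxρ
      have hQ2 : Q ^ 2 ≠ 0 := pow_ne_zero 2 hQ
      have hr2 : ∀ z : ℂ, ((Q ^ 2).map toC).IsRoot z → x < ‖z‖ := by
        intro z hz
        rw [Polynomial.map_pow, Polynomial.IsRoot, Polynomial.eval_pow] at hz
        exact lt_of_lt_of_le hxρ (hmin' z (pow_eq_zero_iff (two_ne_zero)|>.mp hz))
      obtain ⟨_, _, h3⟩ := real_rational hx0 hQ2 hr2 hDE
      rw [← h3]
      apply mul_nonneg
      · rw [Polynomial.eval_pow]
        positivity
      · apply tsum_nonneg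
        intro n
        exact mul_nonneg (hDnn n) (by positivity)
    have hEρ : 0 ≤ E.eval ρ := by
      have hmem : Set.Icc 0 ρ ⊆ {x : ℝ | 0 ≤ E.eval x} := by
        rw [← closure_Ico (ne_of_lt hpos)]
        apply closure_minimal
        · intro x hx
          exact hEnn x hx.1 hx.2
        · exact isClosed_le continuous_const (by fun_prop)
      exact hmem ⟨hpos.le, le_refl _⟩
    rw [hE] at hEρ
    simp only [Polynomial.eval_add, Polynomial.eval_sub, Polynomial.eval_mul, Polynomial.eval_C,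
      Polynomial.eval_pow, Polynomial.eval_X, hQρ] at hEρ
    calc (0 : ℝ) ≤ _ := hEρ
      _ = _ := by ring
  have hp2 : 0 < ρ * P.eval ρ ^ 2 := by positivity
  obtain ⟨m, hm⟩ := exists_nat_gt (K * (-(Q.derivative.eval ρ * P.eval ρ)) / (ρ * P.eval ρ ^ 2))
  rw [div_lt_iff₀ hp2] at hm
  linarith [key m]

theorem main_analysis (t : ℕ → ℕ) (h1 : ∀ n, 1 ≤ n → 1 ≤ t n) (K : ℝ) (hK : 0 ≤ K)
    (hineq : ∀ n : ℕ, √(n : ℝ) * ∑ kl ∈ antidiagonal n, (t kl.1 : ℝ) * t kl.2 ≤
      K * ((n : ℝ) + 2) * t (n + 2)) :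
    ¬ ∃ P Q : Polynomial ℚ, Q ≠ 0 ∧
      (Q : ℚ⟦X⟧) * PowerSeries.mk (fun n => (t n : ℚ)) = (P : ℚ⟦X⟧) := by
  rintro ⟨P, Q, hQ, h⟩
  have hg : gcd P Q ≠ 0 := by
    intro h0
    exact hQ ((gcd_eq_zero_iff _ _).mp h0).2
  obtain ⟨P1, hP1⟩ := gcd_dvd_left P Q
  obtain ⟨Q1, hQ1⟩ := gcd_dvd_right P Q
  have hQ1ne : Q1 ≠ 0 := by
    rintro rfl
    rw [mul_zero] at hQ1
    exact hQ hQ1
  have hco : IsCoprime P1 Q1 := by
    apply (gcd_isUnit_iff P1 Q1).mp
    have h2 : gcd P Q = gcd (gcd P Q * P1) (gcd P Q * Q1) := by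
      rw [← hP1, ← hQ1]
    rw [_root_.gcd_mul_left] at h2
    have h3 : Associated (gcd P Q * 1) (gcd P Q * gcd P1 Q1) := by
      rw [mul_one]
      exact (Associated.of_eq h2).trans ((normalize_associated _).mul_right _)
    exact ((Associated.of_mul_left h3 (Associated.refl _) hg)).isUnit isUnit_one
  have h4 : (Q1 : ℚ⟦X⟧) * PowerSeries.mk (fun n => (t n : ℚ)) = (P1 : ℚ⟦X⟧) := by
    have h5 : ((gcd P Q : Polynomial ℚ) : ℚ⟦X⟧) ≠ 0 := by
      intro h0
      apply hg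
      exact_mod_cast h0
    apply mul_left_cancel₀ h5
    rw [← mul_assoc, ← Polynomial.coe_mul, ← hQ1, h, ← Polynomial.coe_mul, ← hP1]
  have h6 : ((Q1.map (algebraMap ℚ ℝ) : Polynomial ℝ) : ℝ⟦X⟧) *
      PowerSeries.mk (fun n => (t n : ℝ)) = ((P1.map (algebraMap ℚ ℝ) : Polynomial ℝ) : ℝ⟦X⟧) := by
    rw [Polynomial.polynomial_map_coe, Polynomial.polynomial_map_coe, ← h4, map_mul]
    congr 1
  refine coprime_case t h1 K hK hineq _ _ ?_ ?_ h6
  · rwa [Ne, Polynomial.map_eq_zero]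
  · exact hco.map (Polynomial.mapRingHom (algebraMap ℚ ℝ))

end Pool.Agent.Helper54.PolyAnalysis
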