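import Mathlib
import Pool.Agent.Helper54.PolyAnalysis

set_option autoImplicit false

namespace Pool.Agent.Helper54.Polyomino

open Finset

/-- The cell `[a, a+1] × [b, b+1]` is represented by its lower left corner `(a, b)`. -/
abbrev Cell := ℤ × ℤ

/-- Two cells are adjacent when they share an edge. -/
def cellGraph : SimpleGraph Cell where
  Adj a b := |a.1 - b.1| + |a.2 - b.2| = 1
  symm := ⟨fun a b h => by rwa [abs_sub_comm b.1, abs_sub_comm b.2]⟩
  loopless := ⟨fun a h => by simp at h⟩

/-- A polyomino is a finite nonempty set of cells, connected through shared edges. -/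
def IsPolyomino (P : Finset Cell) : Prop := (cellGraph.induce (P : Set Cell)).Connected

/-- The translate of a set of cells. -/
def translate (v : Cell) (P : Finset Cell) : Finset Cell := P.image (· + v)

theorem mem_translate {v : Cell} {P : Finset Cell} {a : Cell} :
    a ∈ translate v P ↔ a - v ∈ P := by
  unfold translate
  rw [mem_image]
  constructor
  · rintro ⟨b, hb, rfl⟩
    simpa using hb
  · intro h
    exact ⟨a - v, h, by simp⟩

theorem translate_zero (P : Finset Cell) : translate 0 P = P := by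
  ext a
  rw [mem_translate, sub_zero]

theorem translate_translate (u v : Cell) (P : Finset Cell) :
    translate u (translate v P) = translate (u + v) P := by
  ext a
  rw [mem_translate, mem_translate, mem_translate, sub_sub]

theorem translate_neg_cancel (v : Cell) (P : Finset Cell) :
    translate (-v) (translate v P) = P := by
  rw [translate_translate]
  simp [translate_zero]

/-- The `n`-ominoes, two of them being identified when they differ by a translation. -/
def polySetoid (n : ℕ) : Setoid {P : Finset Cell // IsPolyomino P ∧ P.card = n} where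
  r P Q := ∃ v : Cell, Q.1 = translate v P.1
  iseqv := {
    refl := fun P => ⟨0, (translate_zero _).symm⟩
    symm := fun {P Q} ⟨v, h⟩ => ⟨-v, by rw [h, translate_translate]; simp [translate_zero]⟩
    trans := fun {P Q R} ⟨v, h⟩ ⟨w, h'⟩ => ⟨w + v, by rw [h', h, translate_translate]⟩ }

/-- The number of fixed `n`-ominoes. -/
noncomputable def t (n : ℕ) : ℕ := Nat.card (Quotient (polySetoid n))

/-! ### Basic facts -/

theorem adj_iff {a b : Cell} : cellGraph.Adj a b ↔ |a.1 - b.1| + |a.2 - b.2| = 1 := Iff.rfl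

theorem card_translate (v : Cell) (P : Finset Cell) : (translate v P).card = P.card := by
  unfold translate
  exact card_image_of_injective _ (add_left_injective v)

/-- a set of cells is connected as soon as everything can be reached within the set -/
theorem polyomino_iff {P : Finset Cell} : IsPolyomino P ↔
    P.Nonempty ∧ ∀ a ∈ P, ∀ b ∈ P,
      Relation.ReflTransGen (fun x y => cellGraph.Adj x y ∧ y ∈ P) a b := by
  unfold IsPolyomino
  rw [SimpleGraph.connected_iff]
  constructor
  · rintro ⟨h1, ⟨x⟩⟩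
    refine ⟨⟨x.1, x.2⟩, fun a ha b hb => ?_⟩
    have h2 := h1 ⟨a, ha⟩ ⟨b, hb⟩
    rw [SimpleGraph.reachable_iff_reflTransGen] at h2
    have : ∀ y, Relation.ReflTransGen (cellGraph.induce (P : Set Cell)).Adj ⟨a, ha⟩ y →
        Relation.ReflTransGen (fun x y => cellGraph.Adj x y ∧ y ∈ P) a y.1 := by
      intro y hy
      induction hy with
      | refl => exact .refl
      | tail _ h ih => exact ih.tail ⟨h, (Subtype.prop _ : _ ∈ (P : Set Cell))⟩
    exact this _ h2
  · rintro ⟨⟨x, hx⟩, h⟩
    refine ⟨?_, ⟨⟨x, hx⟩⟩⟩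
    rintro ⟨a, ha⟩ ⟨b, hb⟩
    have h2 := h a ha b hb
    rw [SimpleGraph.reachable_iff_reflTransGen]
    have : ∀ y, Relation.ReflTransGen (fun x y => cellGraph.Adj x y ∧ y ∈ P) a y → ∀ hy : y ∈ (P : Set Cell),
        Relation.ReflTransGen (cellGraph.induce (P : Set Cell)).Adj ⟨a, ha⟩ ⟨y, hy⟩ := by
      intro y hy
      induction hy with
      | refl => intro _; exact .refl
      | @tail y z hyz hz ih =>
        intro hzP
        rcases eq_or_ne y a with rfl | hne
        · exact Relation.ReflTransGen.single hz.1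
        · have hyP : y ∈ P := by
            rcases Relation.ReflTransGen.cases_tail hyz with h | ⟨c, _, hc⟩
            · exact absurd h hne
            · exact hc.2
          exact (ih hyP).tail hz.1
    exact this b h2 hb

theorem IsPolyomino.nonempty {P : Finset Cell} (h : IsPolyomino P) : P.Nonempty :=
  (polyomino_iff.mp h).1

theorem isPolyomino_translate {P : Finset Cell} (h : IsPolyomino P) (v : Cell) :
    IsPolyomino (translate v P) := by
  rw [polyomino_iff] at h ⊢
  obtain ⟨⟨x, hx⟩, h⟩ := h
  refine ⟨⟨x + v, by rw [mem_translate]; simpa using hx⟩, fun a ha b hb => ?_⟩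
  rw [mem_translate] at ha hb
  have h2 := h _ ha _ hb
  have := Relation.ReflTransGen.lift (p := fun x y => cellGraph.Adj x y ∧ y ∈ translate v P)
    (fun x => x + v) (fun x y hxy => by
      refine ⟨?_, ?_⟩
      · have := hxy.1
        rw [adj_iff] at this ⊢
        simpa using this
      · rw [mem_translate]
        simpa using hxy.2) _ _ h2
  simpa [Function.onFun] using this

/-- if a polyomino is contained in the union of two sets without adjacencies and meets the first
one, it is contained in the first one. -/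
theorem subset_of_sep {P A B : Finset Cell} (hP : IsPolyomino P) (hsub : P ⊆ A ∪ B)
    (hno : ∀ a ∈ A, ∀ b ∈ B, ¬ cellGraph.Adj a b) {x : Cell} (hxP : x ∈ P) (hxA : x ∈ A) :
    P ⊆ A := by
  intro y hy
  have h := (polyomino_iff.mp hP).2 x hxP y hy
  have : ∀ z, Relation.ReflTransGen (fun x y => cellGraph.Adj x y ∧ y ∈ P) x z → z ∈ A := by
    intro z hz
    induction hz with
    | refl => exact hxA
    | @tail y z _ hz ih =>
      rcases mem_union.mp (hsub hz.2) with h1 | h1
      · exact h1
      · exact absurd hz.1 (hno _ ih _ h1)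
  exact this y h

/-- The translation vector is unique. -/
theorem translate_inj {P : Finset Cell} (hP : P.Nonempty) {u v : Cell}
    (h : translate u P = translate v P) : u = v := by
  have key : ∀ w : Cell, ∑ a ∈ translate w P, a = ∑ a ∈ P, a + P.card • w := by
    intro w
    unfold translate
    rw [sum_image (by intro a _ b _ hab; exact add_left_injective w hab), sum_add_distrib,
      sum_const]
  have h1 := key u
  rw [h, key v] at h1
  have h2 : P.card • v = P.card • u := add_left_cancel h1
  have h3 : P.card ≠ 0 := by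
    rw [Ne, card_eq_zero]
    exact hP.ne_empty
  have e1 := congrArg Prod.fst h2
  have e2 := congrArg Prod.snd h2
  simp only [nsmul_eq_mul] at e1
  simp only [nsmul_eq_mul] at e2
  have h4 : (P.card : ℤ) ≠ 0 := by exact_mod_cast h3
  exact Prod.ext (mul_left_cancel₀ h4 e1).symm (mul_left_cancel₀ h4 e2).symm

/-! ### Bounded size -/

theorem walk_bound {P : Finset Cell} {a b : (P : Set Cell)}
    (w : (cellGraph.induce (P : Set Cell)).Walk a b) :
    |a.1.1 - b.1.1| ≤ w.length ∧ |a.1.2 - b.1.2| ≤ w.length := by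
  induction w with
  | nil => simp
  | @cons a b c h w ih =>
    have h' : |a.1.1 - b.1.1| + |a.1.2 - b.1.2| = 1 := h
    have h1 := abs_nonneg (a.1.1 - b.1.1)
    have h2 := abs_nonneg (a.1.2 - b.1.2)
    have h3 : |a.1.1 - c.1.1| ≤ |a.1.1 - b.1.1| + |b.1.1 - c.1.1| := abs_sub_le _ _ _
    have h4 : |a.1.2 - c.1.2| ≤ |a.1.2 - b.1.2| + |b.1.2 - c.1.2| := abs_sub_le _ _ _
    rw [SimpleGraph.Walk.length_cons]
    push_cast
    constructor <;> linarith [ih.1, ih.2]

theorem bound {P : Finset Cell} (hP : IsPolyomino P) {a b : Cell} (ha : a ∈ P) (hb : b ∈ P) :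
    |a.1 - b.1| ≤ P.card ∧ |a.2 - b.2| ≤ P.card := by
  classical
  obtain ⟨w⟩ := hP.preconnected ⟨a, ha⟩ ⟨b, hb⟩
  have h1 := walk_bound w.bypass
  have h2 := (w.bypass_isPath).length_lt
  have h3 : Fintype.card ((P : Set Cell) : Type) = P.card := by simp
  rw [h3] at h2
  have h4 : (w.bypass.length : ℤ) < P.card := by exact_mod_cast h2
  constructor
  · linarith [h1.1]
  · linarith [h1.2]

/-- The polyominoes with `n` cells, containing the cell `0`. -/
def Rooted (n : ℕ) : Set (Finset Cell) := {R | IsPolyomino R ∧ R.card = n ∧ (0 : Cell) ∈ R}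

theorem rooted_finite (n : ℕ) : (Rooted n).Finite := by
  apply Set.Finite.subset (Finset.finite_toSet
    (Finset.powerset (Finset.Icc ((-n, -n) : Cell) (n, n))))
  rintro R ⟨h1, h2, h3⟩
  rw [mem_coe, mem_powerset]
  intro a ha
  obtain ⟨h4, h5⟩ := bound h1 ha h3
  rw [h2] at h4 h5
  simp only [Prod.fst_zero, Prod.snd_zero, sub_zero, abs_le] at h4 h5
  rw [mem_Icc]
  exact ⟨⟨h4.1, h5.1⟩, ⟨h4.2, h5.2⟩⟩

instance (n : ℕ) : Finite (Rooted n) := rooted_finite n

instance quot_finite (n : ℕ) : Finite (Quotient (polySetoid n)) := by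
  have : ∀ q : Quotient (polySetoid n), ∃ R : Rooted n,
      q = Quotient.mk (polySetoid n) ⟨R.1, R.2.1, R.2.2.1⟩ := by
    intro q
    induction q using Quotient.inductionOn with
    | _ P =>
      obtain ⟨x, hx⟩ := P.2.1.nonempty
      refine ⟨⟨translate (-x) P.1, isPolyomino_translate P.2.1 _, ?_, ?_⟩, ?_⟩
      · rw [card_translate, P.2.2]
      · rw [mem_translate]
        simpa using hx
      · apply Quotient.sound
        exact ⟨-x, rfl⟩
  choose f hf using this
  apply Finite.of_injective f
  intro q q' h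
  rw [hf q, hf q', h]

/-- each rooted polyomino is determined by its class and by the position of the root. -/
theorem rooted_le (n : ℕ) : Nat.card (Rooted n) ≤ n * t n := by
  classical
  have : Fintype (Quotient (polySetoid n)) := Fintype.ofFinite _
  have h1 : ∀ R : Rooted n, ∃ (q : Quotient (polySetoid n)) (p : Cell),
      p ∈ (Quotient.out q).1 ∧ R.1 = translate (-p) (Quotient.out q).1 := by
    intro R
    set q := Quotient.mk (polySetoid n) ⟨R.1, R.2.1, R.2.2.1⟩ with hq
    have h2 : Quotient.mk (polySetoid n) (Quotient.out q) = q := Quotient.out_eq q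
    obtain ⟨v, hv⟩ : ∃ v, R.1 = translate v (Quotient.out q).1 := Quotient.exact h2
    refine ⟨q, -v, ?_, ?_⟩
    · have h3 := R.2.2.2
      rw [hv, mem_translate] at h3
      simpa using h3
    · rw [neg_neg, hv]
  choose q p hp hR using h1
  have hinj : Function.Injective (fun R : Rooted n =>
      (⟨q R, ⟨p R, hp R⟩⟩ : Σ c : Quotient (polySetoid n), {x : Cell // x ∈ (Quotient.out c).1})) := by
    intro R R' h
    rw [Sigma.mk.injEq] at h
    obtain ⟨h1, h2⟩ := h
    apply Subtype.ext
    rw [hR R, hR R', ← h1]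
    have h3 : p R = p R' := by
      have : ∀ (c c' : Quotient (polySetoid n)) (x : {x : Cell // x ∈ (Quotient.out c).1})
          (x' : {x : Cell // x ∈ (Quotient.out c').1}), c = c' → x ≍ x' → x.1 = x'.1 := by
        intro c c' x x' hc hx
        subst hc
        rw [eq_of_heq hx]
      exact this _ _ _ _ h1 h2
    rw [h3]
  have h2 := Nat.card_le_card_of_injective _ hinj
  rw [Nat.card_sigma] at h2
  refine h2.trans ?_
  have h3 : ∀ c : Quotient (polySetoid n), Nat.card {x : Cell // x ∈ (Quotient.out c).1} = n := by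
    intro c
    rw [Nat.card_eq_fintype_card, Fintype.card_coe]
    exact (Quotient.out c).2.2
  rw [sum_congr rfl (fun c _ => h3 c), sum_const, card_univ, smul_eq_mul, t,
    Nat.card_eq_fintype_card, mul_comm]

/-! ### Gluing -/

/-- `R` is obtained by gluing translates of `P` and `Q`, with vertical offset `s` and
orientation `ε`. -/
def Glued (P Q : Finset Cell) (s ε : ℤ) (R : Finset Cell) : Prop :=
  ∃ u v : Cell, v.2 - u.2 = s ∧ ((-1, 0) : Cell) ∈ translate u P ∧
    (∀ a ∈ translate u P, ∀ b ∈ translate v Q, |a.2 - b.2| ≤ 1 → a.1 + 2 ≤ b.1) ∧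
    ((0, 0) : Cell) ∉ translate u P ∪ translate v Q ∧
    ((0, ε) : Cell) ∉ translate u P ∪ translate v Q ∧
    R = translate u P ∪ translate v Q ∪ {(0, 0), (0, ε)}

theorem not_adj_of_sep {A B : Finset Cell}
    (h : ∀ a ∈ A, ∀ b ∈ B, |a.2 - b.2| ≤ 1 → a.1 + 2 ≤ b.1) :
    ∀ a ∈ A, ∀ b ∈ B, ¬ cellGraph.Adj a b := by
  intro a ha b hb hab
  rw [adj_iff] at hab
  have h1 := abs_nonneg (a.1 - b.1)
  have h2 := h a ha b hb (by linarith)
  have h3 := neg_abs_le (a.1 - b.1)
  have h4 := abs_nonneg (a.2 - b.2)
  linarith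

theorem disjoint_of_sep {A B : Finset Cell}
    (h : ∀ a ∈ A, ∀ b ∈ B, |a.2 - b.2| ≤ 1 → a.1 + 2 ≤ b.1) : Disjoint A B := by
  rw [Finset.disjoint_left]
  intro a ha hb
  have := h a ha a hb (by simp)
  linarith

theorem exists_glued {P Q : Finset Cell} (hP : IsPolyomino P) (hQ : IsPolyomino Q) (s : ℤ)
    (h : ∃ p ∈ P, ∃ q ∈ Q, p.2 = q.2 + s) :
    ∃ ε : ℤ, (ε = 1 ∨ ε = -1) ∧ ∃ R, R ∈ Rooted (P.card + Q.card + 2) ∧ Glued P Q s ε R := by
  classical
  obtain ⟨p0, hp0, q0, hq0, hpq⟩ := h
  obtain ⟨⟨p, q⟩, hx, hmax⟩ := Finset.exists_max_image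
    ((P ×ˢ Q).filter (fun x => |x.1.2 - x.2.2 - s| ≤ 1)) (fun x => x.1.1 - x.2.1)
    ⟨(p0, q0), by
      rw [mem_filter, mem_product]
      refine ⟨⟨hp0, hq0⟩, ?_⟩
      simp only
      rw [hpq]
      simp⟩
  rw [mem_filter, mem_product] at hx
  obtain ⟨⟨hp, hq⟩, he⟩ := hx
  simp only at hp hq he hmax
  set u : Cell := (-(p.1 + 1), -p.2) with hu
  set v : Cell := (1 - q.1, s - p.2) with hv
  set A := translate u P with hA
  set B := translate v Q with hB
  have hsep : ∀ a ∈ A, ∀ b ∈ B, |a.2 - b.2| ≤ 1 → a.1 + 2 ≤ b.1 := by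
    intro a ha b hb hab
    rw [hA, mem_translate] at ha
    rw [hB, mem_translate] at hb
    have h1 := hmax (a - u, b - v) (by
      rw [mem_filter, mem_product]
      refine ⟨⟨ha, hb⟩, ?_⟩
      simp only [Prod.snd_sub, hu, hv]
      have : a.2 - -p.2 - (b.2 - (s - p.2)) - s = a.2 - b.2 := by ring
      rw [this]
      exact hab)
    simp only [Prod.fst_sub, hu, hv] at h1
    linarith
  have hpA : ((-1, 0) : Cell) ∈ A := by
    rw [hA, mem_translate, hu]
    have : ((-1, 0) : Cell) - (-(p.1 + 1), -p.2) = p := by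
      ext <;> simp
    rw [this]
    exact hp
  set e : ℤ := q.2 + s - p.2 with hee
  have hqB : ((1, e) : Cell) ∈ B := by
    rw [hB, mem_translate, hv]
    have : ((1, e) : Cell) - (1 - q.1, s - p.2) = q := by
      ext
      · simp
      · simp only [Prod.snd_sub, hee]
        ring
    rw [this]
    exact hq
  have he' : e = -1 ∨ e = 0 ∨ e = 1 := by
    rw [abs_le] at he
    omega
  obtain ⟨ε, hε, heε⟩ : ∃ ε : ℤ, (ε = 1 ∨ ε = -1) ∧ (e = 0 ∨ e = ε) := by
    rcases he' with h | h | h
    · exact ⟨-1, Or.inr rfl, Or.inr h⟩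
    · exact ⟨1, Or.inl rfl, Or.inl h⟩
    · exact ⟨1, Or.inl rfl, Or.inr h⟩
  have h0A : ((0, 0) : Cell) ∉ A := by
    intro h0
    have := hsep _ h0 _ hqB (by
      simp only
      rw [abs_le]
      omega)
    simp at this
  have hεA : ((0, ε) : Cell) ∉ A := by
    intro h0
    have := hsep _ h0 _ hqB (by
      simp only
      rw [abs_le]
      omega)
    simp at this
  have h0B : ((0, 0) : Cell) ∉ B := by
    intro h0
    have := hsep _ hpA _ h0 (by simp)
    simp at this
  have hεB : ((0, ε) : Cell) ∉ B := by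
    intro h0
    have := hsep _ hpA _ h0 (by
      simp only
      rw [abs_le]
      omega)
    simp at this
  have hAP : IsPolyomino A := isPolyomino_translate hP u
  have hBP : IsPolyomino B := isPolyomino_translate hQ v
  refine ⟨ε, hε, A ∪ B ∪ {(0, 0), (0, ε)}, ⟨?_, ?_, ?_⟩, u, v, ?_, hpA, hsep, ?_, ?_, rfl⟩
  · -- connectedness
    have hpair : (cellGraph.induce ({((0, 0) : Cell), (0, ε)} : Set Cell)).Connected := by
      apply SimpleGraph.induce_pair_connected_of_adj
      rw [adj_iff]
      rcases hε with h | h <;> simp [h]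
    have h1 : (cellGraph.induce ((A : Set Cell) ∪ {((0, 0) : Cell), (0, ε)})).Connected := by
      apply SimpleGraph.connected_induce_union (v := ((-1, 0) : Cell)) (w := ((0, 0) : Cell))
        hAP.preconnected hpair.preconnected hpA (by simp)
      rw [adj_iff]
      simp
    have h2 : (cellGraph.induce (((A : Set Cell) ∪ {((0, 0) : Cell), (0, ε)}) ∪
        (B : Set Cell))).Connected := by
      rcases heε with h | h
      · apply SimpleGraph.connected_induce_union (v := ((0, 0) : Cell)) (w := ((1, e) : Cell))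
          h1.preconnected hBP.preconnected (by simp) hqB
        rw [adj_iff]
        simp [h]
      · apply SimpleGraph.connected_induce_union (v := ((0, ε) : Cell)) (w := ((1, e) : Cell))
          h1.preconnected hBP.preconnected (by simp) hqB
        rw [adj_iff]
        simp [h]
    unfold IsPolyomino
    have h3 : ((A ∪ B ∪ {(0, 0), (0, ε)} : Finset Cell) : Set Cell) =
        ((A : Set Cell) ∪ {((0, 0) : Cell), (0, ε)}) ∪ (B : Set Cell) := by
      push_cast
      rw [Set.union_right_comm]
    rw [h3]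
    exact h2
  · -- cardinality
    rw [card_union_of_disjoint, card_union_of_disjoint (disjoint_of_sep hsep), hA, hB,
      card_translate, card_translate, card_pair]
    · rcases hε with h | h <;> simp [h]
    · rw [Finset.disjoint_right]
      intro x hx
      rw [mem_insert, mem_singleton] at hx
      rw [mem_union, not_or]
      rcases hx with rfl | rfl
      · exact ⟨h0A, h0B⟩
      · exact ⟨hεA, hεB⟩
  · have : (0 : Cell) = (0, 0) := rfl
    rw [this]
    simp
  · simp only [hu, hv]
    ring
  · rw [mem_union, not_or]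
    exact ⟨h0A, h0B⟩
  · rw [mem_union, not_or]
    exact ⟨hεA, hεB⟩

theorem glued_unique {P Q P' Q' : Finset Cell} {s s' ε : ℤ} {R : Finset Cell}
    (hP : IsPolyomino P) (hQ : IsPolyomino Q) (hP' : IsPolyomino P')
    (h : Glued P Q s ε R) (h' : Glued P' Q' s' ε R) :
    (∃ w, P' = translate w P) ∧ (∃ w, Q' = translate w Q) ∧ (P = P' → Q = Q' → s = s') := by
  classical
  obtain ⟨u, v, hs, hpA, hsep, h0, hε, hR⟩ := h
  obtain ⟨u', v', hs', hpA', hsep', h0', hε', hR'⟩ := h'
  set A := translate u P with hA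
  set B := translate v Q with hB
  set A' := translate u' P' with hA'
  set B' := translate v' Q' with hB'
  have hAP : IsPolyomino A := isPolyomino_translate hP u
  have hAP' : IsPolyomino A' := isPolyomino_translate hP' u'
  have hunion : A ∪ B = A' ∪ B' := by
    have e1 : R \ {(0, 0), (0, ε)} = A ∪ B := by
      rw [hR, union_sdiff_cancel_right]
      rw [Finset.disjoint_right]
      intro x hx
      rw [mem_insert, mem_singleton] at hx
      rcases hx with rfl | rfl
      · exact h0
      · exact hε
    have e2 : R \ {(0, 0), (0, ε)} = A' ∪ B' := by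
      rw [hR', union_sdiff_cancel_right]
      rw [Finset.disjoint_right]
      intro x hx
      rw [mem_insert, mem_singleton] at hx
      rcases hx with rfl | rfl
      · exact h0'
      · exact hε'
    rw [← e1, e2]
  have h1 : A ⊆ A' := subset_of_sep hAP (by rw [← hunion]; exact subset_union_left)
    (not_adj_of_sep hsep') hpA hpA'
  have h2 : A' ⊆ A := subset_of_sep hAP' (by rw [hunion]; exact subset_union_left)
    (not_adj_of_sep hsep) hpA' hpA
  have hAA : A = A' := Subset.antisymm h1 h2
  have hBB : B = B' := by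
    have e1 : (A ∪ B) \ A = B := union_sdiff_cancel_left (disjoint_of_sep hsep)
    have e2 : (A' ∪ B') \ A' = B' := union_sdiff_cancel_left (disjoint_of_sep hsep')
    rw [← e1, hunion, hAA, e2]
  refine ⟨⟨-u' + u, ?_⟩, ⟨-v' + v, ?_⟩, ?_⟩
  · rw [← translate_translate, ← hA, hAA, hA', translate_translate]
    simp [translate_zero]
  · rw [← translate_translate, ← hB, hBB, hB', translate_translate]
    simp [translate_zero]
  · intro hPP hQQ
    subst hPP hQQ
    have hu : u = u' := translate_inj hP.nonempty hAA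
    have hv : v = v' := translate_inj hQ.nonempty hBB
    rw [← hs, ← hs', hu, hv]

theorem count_rows {ι : Type} [Fintype ι] (n : ℕ) (P Q : ι → Finset Cell)
    (hP : ∀ i, IsPolyomino (P i)) (hQ : ∀ i, IsPolyomino (Q i))
    (hc : ∀ i, (P i).card + (Q i).card = n)
    (hinj : ∀ i j, (∃ u, P j = translate u (P i)) → (∃ v, Q j = translate v (Q i)) → i = j) :
    ∑ i, ((P i).image Prod.snd).card ≤ 2 * Nat.card (Rooted (n + 2)) := by
  classical
  have h0 : ∀ i, ∃ q, q ∈ Q i := fun i => (hQ i).nonempty
  choose q0 hq0 using h0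
  have h1 : ∀ x : (Σ i, {y : ℤ // y ∈ (P i).image Prod.snd}),
      ∃ (b : Bool) (R : Rooted (n + 2)),
        Glued (P x.1) (Q x.1) (x.2.1 - (q0 x.1).2) (if b then 1 else -1) R.1 := by
    rintro ⟨i, y, hy⟩
    obtain ⟨p, hp, hpy⟩ := mem_image.mp hy
    obtain ⟨ε, hε, R, hR, hG⟩ := exists_glued (hP i) (hQ i) (y - (q0 i).2)
      ⟨p, hp, q0 i, hq0 i, by rw [hpy]; ring⟩
    rw [hc i] at hR
    rcases hε with rfl | rfl
    · exact ⟨true, ⟨R, hR⟩, by simpa using hG⟩
    · exact ⟨false, ⟨R, hR⟩, by simpa using hG⟩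
  choose b R hG using h1
  have hinj2 : Function.Injective (fun x => (b x, R x)) := by
    rintro x x' h
    rw [Prod.mk.injEq] at h
    obtain ⟨hb, hR⟩ := h
    have g1 := hG x
    have g2 := hG x'
    rw [← hb, ← hR] at g2
    obtain ⟨e1, e2, e3⟩ := glued_unique (hP _) (hQ _) (hP _) g1 g2
    obtain ⟨i, y⟩ := x
    obtain ⟨i', y'⟩ := x'
    have hii : i = i' := hinj i i' e1 e2
    subst hii
    have := e3 rfl rfl
    simp only at this
    have hy : y = y' := by
      apply Subtype.ext
      linarith
    rw [hy]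
  have h2 := Nat.card_le_card_of_injective _ hinj2
  rw [Nat.card_sigma, Nat.card_prod] at h2
  simp only [Nat.card_eq_fintype_card, Fintype.card_coe, Fintype.card_bool] at h2
  exact h2

/-! ### Transposition -/

/-- transposition of a set of cells -/
def transp (P : Finset Cell) : Finset Cell := P.image Prod.swap

theorem mem_transp {P : Finset Cell} {a : Cell} : a ∈ transp P ↔ a.swap ∈ P := by
  unfold transp
  rw [mem_image]
  constructor
  · rintro ⟨b, hb, rfl⟩
    simpa using hb
  · intro h
    exact ⟨a.swap, h, Prod.swap_swap a⟩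

theorem transp_translate (v : Cell) (P : Finset Cell) :
    transp (translate v P) = translate v.swap (transp P) := by
  ext a
  rw [mem_transp, mem_translate, mem_translate, mem_transp]
  rfl

theorem transp_transp (P : Finset Cell) : transp (transp P) = P := by
  ext a
  rw [mem_transp, mem_transp, Prod.swap_swap]

theorem card_transp (P : Finset Cell) : (transp P).card = P.card := by
  unfold transp
  exact card_image_of_injective _ Prod.swap_injective

theorem isPolyomino_transp {P : Finset Cell} (h : IsPolyomino P) : IsPolyomino (transp P) := by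
  rw [polyomino_iff] at h ⊢
  obtain ⟨⟨x, hx⟩, h⟩ := h
  refine ⟨⟨x.swap, by rw [mem_transp]; simpa using hx⟩, fun a ha b hb => ?_⟩
  rw [mem_transp] at ha hb
  have h2 := h _ ha _ hb
  have := Relation.ReflTransGen.lift (p := fun x y => cellGraph.Adj x y ∧ y ∈ transp P)
    Prod.swap (fun x y hxy => by
      refine ⟨?_, ?_⟩
      · have := hxy.1
        rw [adj_iff] at this ⊢
        simp only [Prod.fst_swap, Prod.snd_swap]
        linarith
      · rw [mem_transp]
        simpa using hxy.2) _ _ h2
  simpa [Function.onFun] using this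

theorem count_both {ι : Type} [Fintype ι] (n : ℕ) (P Q : ι → Finset Cell)
    (hP : ∀ i, IsPolyomino (P i)) (hQ : ∀ i, IsPolyomino (Q i))
    (hc : ∀ i, (P i).card + (Q i).card = n)
    (hinj : ∀ i j, (∃ u, P j = translate u (P i)) → (∃ v, Q j = translate v (Q i)) → i = j) :
    ∑ i, (((P i).image Prod.snd).card + ((P i).image Prod.fst).card) ≤
      4 * Nat.card (Rooted (n + 2)) := by
  have h1 := count_rows n P Q hP hQ hc hinj
  have h2 := count_rows n (fun i => transp (P i)) (fun i => transp (Q i))
    (fun i => isPolyomino_transp (hP i)) (fun i => isPolyomino_transp (hQ i))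
    (fun i => by rw [card_transp, card_transp, hc])
    (fun i j => by
      rintro ⟨u, hu⟩ ⟨v, hv⟩
      apply hinj i j
      · refine ⟨u.swap, ?_⟩
        rw [← transp_transp (P j), hu, transp_translate, transp_transp]
      · refine ⟨v.swap, ?_⟩
        rw [← transp_transp (Q j), hv, transp_translate, transp_transp])
  have h3 : ∀ i, ((transp (P i)).image Prod.snd).card = ((P i).image Prod.fst).card := by
    intro i
    unfold transp
    rw [image_image]
    rfl
  simp only [h3] at h2
  rw [sum_add_distrib]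
  linarith

theorem sqrt_le (P : Finset Cell) : 2 * √(P.card : ℝ) ≤
    (((P.image Prod.snd).card + (P.image Prod.fst).card : ℕ) : ℝ) := by
  have h1 : P.card ≤ (P.image Prod.fst).card * (P.image Prod.snd).card := by
    rw [← card_product]
    exact card_le_card subset_product
  set a := (P.image Prod.fst).card
  set b := (P.image Prod.snd).card
  have h2 : (P.card : ℝ) ≤ ((((b + a : ℕ) : ℝ)) / 2) ^ 2 := by
    have : (P.card : ℝ) ≤ a * b := by exact_mod_cast h1
    push_cast
    nlinarith [sq_nonneg ((a : ℝ) - b)]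
  have h3 : √(P.card : ℝ) ≤ ((b + a : ℕ) : ℝ) / 2 := by
    rw [Real.sqrt_le_left (by positivity)]
    exact h2
  linarith

/-- the index type of the pairs of classes of polyominoes with `n` cells in total -/
abbrev Idx (n : ℕ) : Type :=
  Σ kl : {kl : ℕ × ℕ // kl ∈ antidiagonal n},
    Quotient (polySetoid kl.1.1) × Quotient (polySetoid kl.1.2)

theorem main_ineq_aux (n : ℕ) :
    2 * ∑ kl ∈ antidiagonal n, (t kl.1 : ℝ) * t kl.2 * √(kl.1 : ℝ) ≤
      4 * (((n : ℝ) + 2) * t (n + 2)) := by
  classical
  have hf : ∀ n, Fintype (Quotient (polySetoid n)) := fun n => Fintype.ofFinite _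
  have hcount := count_both (ι := Idx n) n (fun i => (Quotient.out i.2.1).1)
    (fun i => (Quotient.out i.2.2).1) (fun i => (Quotient.out i.2.1).2.1)
    (fun i => (Quotient.out i.2.2).2.1)
    (fun i => by
      rw [(Quotient.out i.2.1).2.2, (Quotient.out i.2.2).2.2]
      exact mem_antidiagonal.mp i.1.2)
    (by
      rintro ⟨⟨⟨k, l⟩, hkl⟩, c, d⟩ ⟨⟨⟨k', l'⟩, hkl'⟩, c', d'⟩ ⟨u, hu⟩ ⟨v, hv⟩
      have hk : k = k' := by
        have := congrArg Finset.card hu
        rw [card_translate] at this
        have h1 := (Quotient.out c).2.2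
        have h2 := (Quotient.out c').2.2
        simp only at h1 h2 this
        omega
      have hl : l = l' := by
        have := congrArg Finset.card hv
        rw [card_translate] at this
        have h1 := (Quotient.out d).2.2
        have h2 := (Quotient.out d').2.2
        simp only at h1 h2 this
        omega
      subst hk hl
      have hcc : c = c' := by
        rw [← Quotient.out_eq c, ← Quotient.out_eq c']
        exact Quotient.sound ⟨u, hu⟩
      have hdd : d = d' := by
        rw [← Quotient.out_eq d, ← Quotient.out_eq d']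
        exact Quotient.sound ⟨v, hv⟩
      rw [hcc, hdd])
  have h1 : 4 * Nat.card (Rooted (n + 2)) ≤ 4 * ((n + 2) * t (n + 2)) :=
    Nat.mul_le_mul_left 4 (rooted_le (n + 2))
  have h2 := hcount.trans h1
  have h3 : (∑ i : Idx n, 2 * √(((Quotient.out i.2.1).1.card : ℕ) : ℝ)) ≤
      4 * (((n : ℝ) + 2) * t (n + 2)) := by
    refine (sum_le_sum fun i _ => sqrt_le _).trans ?_
    rw [← Nat.cast_sum]
    exact_mod_cast h2
  refine le_trans (le_of_eq ?_) h3
  rw [Fintype.sum_sigma, mul_sum, ← Finset.sum_attach (antidiagonal n)]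
  refine Finset.sum_congr rfl fun kl _ => ?_
  have h4 : ∀ x : Quotient (polySetoid kl.1.1) × Quotient (polySetoid kl.1.2),
      2 * √(((Quotient.out x.1).1.card : ℕ) : ℝ) = 2 * √(kl.1.1 : ℝ) := by
    intro x
    rw [(Quotient.out x.1).2.2]
  rw [sum_congr rfl (fun x _ => h4 x), sum_const, card_univ, Fintype.card_prod, nsmul_eq_mul]
  unfold t
  rw [Nat.card_eq_fintype_card, Nat.card_eq_fintype_card]
  push_cast
  ring

theorem main_ineq (n : ℕ) :
    √(n : ℝ) * ∑ kl ∈ antidiagonal n, (t kl.1 : ℝ) * t kl.2 ≤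
      4 * ((n : ℝ) + 2) * t (n + 2) := by
  have h1 := main_ineq_aux n
  have h2 : ∑ kl ∈ antidiagonal n, (t kl.1 : ℝ) * t kl.2 * √(kl.1 : ℝ) =
      ∑ kl ∈ antidiagonal n, (t kl.1 : ℝ) * t kl.2 * √(kl.2 : ℝ) := by
    rw [← Finset.Nat.sum_antidiagonal_swap]
    refine Finset.sum_congr rfl fun kl _ => ?_
    simp only [Prod.fst_swap, Prod.snd_swap]
    ring
  have h3 : √(n : ℝ) * ∑ kl ∈ antidiagonal n, (t kl.1 : ℝ) * t kl.2 ≤
      ∑ kl ∈ antidiagonal n, (t kl.1 : ℝ) * t kl.2 * √(kl.1 : ℝ) +
      ∑ kl ∈ antidiagonal n, (t kl.1 : ℝ) * t kl.2 * √(kl.2 : ℝ) := by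
    rw [mul_sum, ← sum_add_distrib]
    refine sum_le_sum fun kl hkl => ?_
    have h4 : √(n : ℝ) ≤ √(kl.1 : ℝ) + √(kl.2 : ℝ) := by
      rw [← mem_antidiagonal.mp hkl]
      push_cast
      rw [Real.sqrt_le_left (by positivity)]
      have e1 := Real.sq_sqrt (Nat.cast_nonneg (α := ℝ) kl.1)
      have e2 := Real.sq_sqrt (Nat.cast_nonneg (α := ℝ) kl.2)
      have e3 : 0 ≤ √(kl.1 : ℝ) * √(kl.2 : ℝ) := by positivity
      nlinarith
    have h5 : 0 ≤ (t kl.1 : ℝ) * t kl.2 := by positivity
    nlinarith
  rw [← h2] at h3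
  linarith

/-! ### Existence of polyominoes of every size -/

theorem isPolyomino_singleton (a : Cell) : IsPolyomino {a} := by
  rw [polyomino_iff]
  refine ⟨⟨a, by simp⟩, fun x hx y hy => ?_⟩
  rw [mem_singleton] at hx hy
  subst hx hy
  exact .refl

theorem line (n : ℕ) : ∃ P : Finset Cell, IsPolyomino P ∧ P.card = n + 1 ∧
    ((n : ℤ), (0 : ℤ)) ∈ P ∧ ∀ a ∈ P, a.1 ≤ n := by
  classical
  induction n with
  | zero =>
    refine ⟨{(0, 0)}, ?_, ?_, ?_, ?_⟩
    · exact isPolyomino_singleton _
    · simp
    · simp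
    · simp
  | succ n ih =>
    obtain ⟨P, h1, h2, h3, h4⟩ := ih
    have hnot : (((n + 1 : ℕ) : ℤ), (0 : ℤ)) ∉ P := by
      intro h
      have := h4 _ h
      push_cast at this
      simp at this
    refine ⟨insert (((n + 1 : ℕ) : ℤ), (0 : ℤ)) P, ?_, ?_, ?_, ?_⟩
    · have h5 := SimpleGraph.connected_induce_union (G := cellGraph)
        (v := (((n + 1 : ℕ) : ℤ), (0 : ℤ))) (w := ((n : ℤ), (0 : ℤ)))
        (isPolyomino_singleton (((n + 1 : ℕ) : ℤ), (0 : ℤ))).preconnected h1.preconnected
        (by simp) h3 (by rw [adj_iff]; simp)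
      unfold IsPolyomino
      rw [coe_insert, Set.insert_eq]
      rwa [coe_singleton] at h5
    · rw [card_insert_of_notMem hnot, h2]
    · simp
    · intro a ha
      rw [mem_insert] at ha
      rcases ha with rfl | ha
      · simp
      · have := h4 a ha
        push_cast
        linarith

theorem t_pos (n : ℕ) (hn : 1 ≤ n) : 1 ≤ t n := by
  obtain ⟨m, rfl⟩ : ∃ m, n = m + 1 := ⟨n - 1, by omega⟩
  obtain ⟨P, h1, h2, _, _⟩ := line m
  have : Nonempty (Quotient (polySetoid (m + 1))) := ⟨Quotient.mk _ ⟨P, h1, h2⟩⟩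
  exact Nat.card_pos

theorem main : ¬ ∃ P Q : Polynomial ℚ, Q ≠ 0 ∧
    (Q : PowerSeries ℚ) * PowerSeries.mk (fun n => (t n : ℚ)) = (P : PowerSeries ℚ) :=
  Pool.Agent.Helper54.PolyAnalysis.main_analysis t t_pos 4 (by norm_num) main_ineq

end Pool.Agent.Helper54.Polyomino
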