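import Mathlib

set_option autoImplicit false

namespace Pool.Agent.Helper54.QDelannoy

open Finset

/-- The Gaussian binomial coefficient at an element `q` of a field, by the product formula for
`k ≤ n`, and `0` for `k > n`. -/
noncomputable def gauss {K : Type*} [Field K] (q : K) (n k : ℕ) : K :=
  if k ≤ n then ∏ i ∈ range k, (1 - q ^ (n - k + (i + 1))) / (1 - q ^ (i + 1)) else 0

/-- The `q`-Delannoy number `D_q(m,n)`. -/
noncomputable def delannoy {K : Type*} [Field K] (q : K) (m n : ℕ) : K :=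
  ∑ k ∈ range (n + 1), q ^ (k * (k - 1) / 2) * gauss q n k * gauss q (n + m - k) n

/-- `P_k = D_q(m,k) D_{1/q}(m,k)`. -/
noncomputable def prodP {K : Type*} [Field K] (q : K) (m k : ℕ) : K :=
  delannoy q m k * delannoy q⁻¹ m k

/-- The expression `A` of the problem. -/
noncomputable def exprA {K : Type*} [Field K] (q : K) (m n : ℕ) : K :=
  (1 - q ^ m) * (1 - q ^ (m + 1)) / ((1 - q ^ 2) * (1 - q ^ n) ^ 2) *
    ∑ k ∈ range n, (1 - q ^ (2 * k + 1)) * (q ^ k)⁻¹ * prodP q m k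

/-- The expression `B` of the problem. -/
noncomputable def exprB {K : Type*} [Field K] (q : K) (m n r : ℕ) : K :=
  1 / (1 - q ^ n) * ∑ k ∈ range n, (1 - q ^ (2 * k + 1)) * (q ^ k)⁻¹ * prodP q m k ^ r

/-- The expression `C` of the problem. -/
noncomputable def exprC {K : Type*} [Field K] (q : K) (m n r : ℕ) : K :=
  1 / (1 - q ^ n) * ∑ k ∈ range n, (-1) ^ (n - 1 - k) * (1 - q ^ (2 * k + 1)) *
    q ^ (k * (k - 1) / 2) * prodP q m k ^ r

section General

variable {K : Type*} [Field K] {q : K}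

/-- `(q;q)_n`. -/
noncomputable def qf (q : K) (n : ℕ) : K := ∏ i ∈ range n, (1 - q ^ (i + 1))

lemma qf_zero : qf q 0 = 1 := by simp [qf]

lemma qf_succ (n : ℕ) : qf q (n + 1) = qf q n * (1 - q ^ (n + 1)) := by
  simp [qf, prod_range_succ]

lemma qf_ne (hq : ∀ i : ℕ, 0 < i → q ^ i ≠ 1) (n : ℕ) : qf q n ≠ 0 := by
  unfold qf
  rw [prod_ne_zero_iff]
  intro i _
  exact sub_ne_zero.2 (hq _ (Nat.succ_pos _)).symm

lemma one_sub_ne (hq : ∀ i : ℕ, 0 < i → q ^ i ≠ 1) {i : ℕ} (hi : 0 < i) : 1 - q ^ i ≠ 0 :=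
  sub_ne_zero.2 (hq i hi).symm

lemma gauss_eq (hq : ∀ i : ℕ, 0 < i → q ^ i ≠ 1) {n k : ℕ} (h : k ≤ n) :
    gauss q n k = qf q n / (qf q k * qf q (n - k)) := by
  unfold gauss
  rw [if_pos h, prod_div_distrib]
  have e : qf q n = qf q (n - k) * ∏ i ∈ range k, (1 - q ^ (n - k + (i + 1))) := by
    unfold qf
    conv_lhs => rw [← Nat.sub_add_cancel h]
    rw [prod_range_add]
    rfl
  rw [e]
  have h1 := qf_ne hq k
  have h2 := qf_ne hq (n - k)
  change _ / qf q k = _
  field_simp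

lemma gauss_of_lt {n k : ℕ} (h : n < k) : gauss q n k = 0 := by
  unfold gauss
  rw [if_neg (not_le.2 h)]

lemma gauss_zero (n : ℕ) : gauss q n 0 = 1 := by simp [gauss]

lemma gauss_self (hq : ∀ i : ℕ, 0 < i → q ^ i ≠ 1) (n : ℕ) : gauss q n n = 1 := by
  rw [gauss_eq hq le_rfl, Nat.sub_self, qf_zero, mul_one, div_self (qf_ne hq n)]

lemma gauss_pascal (hq : ∀ i : ℕ, 0 < i → q ^ i ≠ 1) (n k : ℕ) :
    gauss q (n + 1) (k + 1) = gauss q n k + q ^ (k + 1) * gauss q n (k + 1) := by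
  rcases lt_trichotomy n k with h | h | h
  · rw [gauss_of_lt (by omega), gauss_of_lt h, gauss_of_lt (by omega)]; ring
  · subst h
    rw [gauss_self hq, gauss_self hq, gauss_of_lt (by omega)]; ring
  · obtain ⟨d, rfl⟩ : ∃ d, n = k + 1 + d := ⟨n - (k + 1), by omega⟩
    rw [gauss_eq hq (by omega), gauss_eq hq (by omega), gauss_eq hq (by omega)]
    have e1 : k + 1 + d + 1 - (k + 1) = d + 1 := by omega
    have e2 : k + 1 + d - k = d + 1 := by omega
    have e3 : k + 1 + d - (k + 1) = d := by omega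
    rw [e1, e2, e3, qf_succ (k + 1 + d), qf_succ k, qf_succ d]
    have h1 := qf_ne hq k
    have h2 := qf_ne hq d
    have h3 := one_sub_ne hq (Nat.succ_pos k)
    have h4 := one_sub_ne hq (Nat.succ_pos d)
    field_simp
    ring

lemma gauss_pascal' (hq : ∀ i : ℕ, 0 < i → q ^ i ≠ 1) {n k : ℕ} (h : k ≤ n) :
    gauss q (n + 1) (k + 1) = q ^ (n - k) * gauss q n k + gauss q n (k + 1) := by
  rcases h.eq_or_lt with h | h
  · subst h
    rw [gauss_self hq, gauss_self hq, gauss_of_lt (by omega)]; simp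
  · obtain ⟨d, rfl⟩ : ∃ d, n = k + 1 + d := ⟨n - (k + 1), by omega⟩
    rw [gauss_eq hq (by omega), gauss_eq hq (by omega), gauss_eq hq (by omega)]
    have e1 : k + 1 + d + 1 - (k + 1) = d + 1 := by omega
    have e2 : k + 1 + d - k = d + 1 := by omega
    have e3 : k + 1 + d - (k + 1) = d := by omega
    rw [e1, e2, e3, qf_succ (k + 1 + d), qf_succ k, qf_succ d]
    have h1 := qf_ne hq k
    have h2 := qf_ne hq d
    have h3 := one_sub_ne hq (Nat.succ_pos k)
    have h4 := one_sub_ne hq (Nat.succ_pos d)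
    field_simp
    ring

/-- Absorption: `(1 - q^(k+1)) [n, k+1] = (1 - q^(n-k)) [n, k]`. -/
lemma gauss_absorb (hq : ∀ i : ℕ, 0 < i → q ^ i ≠ 1) {n k : ℕ} (h : k ≤ n) :
    (1 - q ^ (k + 1)) * gauss q n (k + 1) = (1 - q ^ (n - k)) * gauss q n k := by
  rcases h.eq_or_lt with h | h
  · subst h
    rw [gauss_of_lt (by omega)]; simp
  · obtain ⟨d, rfl⟩ : ∃ d, n = k + 1 + d := ⟨n - (k + 1), by omega⟩
    rw [gauss_eq hq (by omega), gauss_eq hq (by omega)]
    have e2 : k + 1 + d - k = d + 1 := by omega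
    have e3 : k + 1 + d - (k + 1) = d := by omega
    rw [e2, e3, qf_succ k, qf_succ d]
    have h1 := qf_ne hq k
    have h2 := qf_ne hq d
    have h3 := one_sub_ne hq (Nat.succ_pos k)
    have h4 := one_sub_ne hq (Nat.succ_pos d)
    field_simp

/-- Absorption in the top index: `(1 - q^(n+1)) [n, k] = (1 - q^(n+1-k)) [n+1, k]`. -/
lemma gauss_absorb' (hq : ∀ i : ℕ, 0 < i → q ^ i ≠ 1) {n k : ℕ} (h : k ≤ n + 1) :
    (1 - q ^ (n + 1)) * gauss q n k = (1 - q ^ (n + 1 - k)) * gauss q (n + 1) k := by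
  rcases h.eq_or_lt with h | h
  · subst h
    rw [gauss_of_lt (by omega)]; simp
  · obtain ⟨d, rfl⟩ : ∃ d, n = k + d := ⟨n - k, by omega⟩
    rw [gauss_eq hq (by omega), gauss_eq hq (by omega)]
    have e2 : k + d - k = d := by omega
    have e3 : k + d + 1 - k = d + 1 := by omega
    rw [e2, e3, qf_succ (k + d), qf_succ d]
    have h1 := qf_ne hq k
    have h2 := qf_ne hq d
    have h4 := one_sub_ne hq (Nat.succ_pos d)
    field_simp

/-- The semiring of nonnegative integral Laurent expressions in `q`. -/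
def S (q : K) : Subsemiring K := Subsemiring.closure {q, q⁻¹}

lemma q_mem : q ∈ S q := Subsemiring.subset_closure (by simp)

lemma qinv_mem : q⁻¹ ∈ S q := Subsemiring.subset_closure (by simp)

lemma gauss_mem (hq : ∀ i : ℕ, 0 < i → q ^ i ≠ 1) (n k : ℕ) : gauss q n k ∈ S q := by
  induction n generalizing k with
  | zero =>
    cases k with
    | zero => rw [gauss_zero]; exact one_mem _
    | succ k => rw [gauss_of_lt (by omega)]; exact zero_mem _
  | succ n ih =>
    cases k with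
    | zero => rw [gauss_zero]; exact one_mem _
    | succ k =>
      rw [gauss_pascal hq]
      exact add_mem (ih _) (mul_mem (pow_mem q_mem _) (ih _))

/-! ### The recurrence of the `q`-Delannoy numbers -/

/-- coefficients of `(-t;q)_m` -/
noncomputable def eCo (q : K) (m k : ℕ) : K := q ^ (k * (k - 1) / 2) * gauss q m k

/-- the power series `(-t;q)_m` -/
noncomputable def eSer (q : K) (m : ℕ) : PowerSeries K := PowerSeries.mk (eCo q m)

/-- coefficients of `1/(t;q)_{m+1}` -/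
noncomputable def hSer (q : K) (m : ℕ) : PowerSeries K :=
  PowerSeries.mk fun l => gauss q (l + m) m

lemma tri_succ (k : ℕ) : (k + 1) * (k + 1 - 1) / 2 = k * (k - 1) / 2 + k := by
  cases k with
  | zero => simp
  | succ k =>
    have h1 : (k + 1 + 1) * (k + 1 + 1 - 1) = (k + 1) * (k + 1 - 1) + (k + 1) * 2 := by
      simp only [Nat.add_sub_cancel]
      ring
    rw [h1, Nat.add_mul_div_right _ _ (by norm_num)]

lemma e_rec (hq : ∀ i : ℕ, 0 < i → q ^ i ≠ 1) (m k : ℕ) :
    (1 - q ^ (k + 1)) * eCo q m (k + 1) = (q ^ k - q ^ m) * eCo q m k := by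
  unfold eCo
  rw [tri_succ, pow_add]
  rcases le_or_gt k m with h | h
  · have e : q ^ m = q ^ k * q ^ (m - k) := by rw [← pow_add]; congr 1; omega
    have := gauss_absorb hq h
    calc _ = q ^ (k * (k - 1) / 2) * q ^ k * ((1 - q ^ (k + 1)) * gauss q m (k + 1)) := by ring
      _ = q ^ (k * (k - 1) / 2) * q ^ k * ((1 - q ^ (m - k)) * gauss q m k) := by rw [this]
      _ = _ := by rw [e]; ring
  · rw [gauss_of_lt h, gauss_of_lt (by omega)]; ring

lemma h_rec (hq : ∀ i : ℕ, 0 < i → q ^ i ≠ 1) (m l : ℕ) :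
    (1 - q ^ (l + 1)) * gauss q (l + 1 + m) m = (1 - q ^ (l + 1 + m)) * gauss q (l + m) m := by
  have := gauss_absorb' hq (n := l + m) (k := m) (by omega)
  have e1 : l + m + 1 - m = l + 1 := by omega
  have e2 : l + m + 1 = l + 1 + m := by omega
  rw [e1, e2] at this
  exact this.symm

open PowerSeries in
lemma eSer_eq (hq : ∀ i : ℕ, 0 < i → q ^ i ≠ 1) (m : ℕ) :
    (1 + X) * rescale q (eSer q m) = (1 + C (q ^ m) * X) * eSer q m := by
  ext n
  cases n with
  | zero =>
    simp only [add_mul, one_mul, mul_assoc, map_add, coeff_zero_X_mul, coeff_C_mul, coeff_rescale,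
      eSer, coeff_mk]
    simp
  | succ k =>
    simp only [add_mul, one_mul, mul_assoc, map_add, coeff_succ_X_mul, coeff_C_mul, coeff_rescale,
      eSer, coeff_mk]
    have := e_rec hq m k
    linear_combination (-1) * this

open PowerSeries in
lemma hSer_eq (hq : ∀ i : ℕ, 0 < i → q ^ i ≠ 1) (m : ℕ) :
    (1 - C (q ^ (m + 1)) * X) * rescale q (hSer q m) = (1 - X) * hSer q m := by
  ext n
  cases n with
  | zero =>
    simp only [sub_mul, one_mul, mul_assoc, map_sub, coeff_zero_X_mul, coeff_C_mul, coeff_rescale,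
      hSer, coeff_mk]
    simp
  | succ k =>
    simp only [sub_mul, one_mul, mul_assoc, map_sub, coeff_succ_X_mul, coeff_C_mul, coeff_rescale,
      hSer, coeff_mk]
    have := h_rec hq m k
    have e : q ^ (k + 1 + m) = q ^ (m + 1) * q ^ k := by rw [← pow_add]; congr 1; omega
    rw [e] at this
    linear_combination (-1) * this

lemma delannoy_eq_coeff (hq : ∀ i : ℕ, 0 < i → q ^ i ≠ 1) (m n : ℕ) :
    delannoy q m n = PowerSeries.coeff n (eSer q m * hSer q m) := by
  rw [PowerSeries.coeff_mul, Finset.Nat.sum_antidiagonal_eq_sum_range_succ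
    (fun i j => PowerSeries.coeff i (eSer q m) * PowerSeries.coeff j (hSer q m))]
  unfold delannoy
  apply sum_congr rfl
  intro k hk
  have hkn : k ≤ n := Nat.lt_succ_iff.1 (mem_range.1 hk)
  simp only [eSer, hSer, PowerSeries.coeff_mk, mul_assoc, eCo]
  congr 1
  rcases le_or_gt k m with h | h
  · rw [gauss_eq hq hkn, gauss_eq hq (n := n + m - k) (k := n) (by omega), gauss_eq hq h,
      gauss_eq hq (n := n - k + m) (k := m) (by omega)]
    have e1 : n + m - k - n = m - k := by omega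
    have e2 : n - k + m = n + m - k := by omega
    have e3 : n - k + m - m = n - k := by omega
    rw [e3, e1, e2]
    have h1 := qf_ne hq k
    have h2 := qf_ne hq (n - k)
    have h3 := qf_ne hq n
    have h4 := qf_ne hq m
    have h5 := qf_ne hq (m - k)
    field_simp
  · rw [gauss_of_lt (n := n + m - k) (by omega), gauss_of_lt h]; ring

open PowerSeries in
lemma delannoy_rec (hq : ∀ i : ℕ, 0 < i → q ^ i ≠ 1) (m n : ℕ) :
    (1 - q ^ (n + 1)) * delannoy q m (n + 1) =
      ((1 - q ^ m) + q ^ n * (1 - q ^ (m + 1))) * delannoy q m n +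
        q ^ m * (1 - q ^ n) * delannoy q m (n - 1) := by
  have key : (1 + X) * ((1 - C (q ^ (m + 1)) * X) * rescale q (eSer q m * hSer q m)) =
      (1 + C (q ^ m) * X) * ((1 - X) * (eSer q m * hSer q m)) := by
    rw [map_mul]
    calc _ = ((1 + X) * rescale q (eSer q m)) *
          ((1 - C (q ^ (m + 1)) * X) * rescale q (hSer q m)) := by ring
      _ = ((1 + C (q ^ m) * X) * eSer q m) * ((1 - X) * hSer q m) := by
          rw [eSer_eq hq, hSer_eq hq]
      _ = _ := by ring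
  have hc := congrArg (coeff (n + 1)) key
  cases n with
  | zero =>
    simp only [add_mul, sub_mul, one_mul, mul_assoc, map_add, map_sub, coeff_succ_X_mul,
      coeff_C_mul, coeff_rescale, ← delannoy_eq_coeff hq, coeff_zero_X_mul, mul_sub] at hc
    simp at hc ⊢
    linear_combination (-1) * hc
  | succ n =>
    simp only [add_mul, sub_mul, one_mul, mul_assoc, map_add, map_sub, coeff_succ_X_mul,
      coeff_C_mul, coeff_rescale, ← delannoy_eq_coeff hq, mul_sub] at hc
    simp only [Nat.add_sub_cancel]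
    linear_combination (-1) * hc

lemma delannoy_zero (m : ℕ) : delannoy q m 0 = 1 := by
  simp [delannoy, gauss_zero]

/-! ### The product formula -/

/-- Newton factor. -/
noncomputable def fN (q Y : K) (i : ℕ) : K := Y⁻¹ + q * Y - (q ^ i)⁻¹ - q * q ^ i

/-- Newton polynomial in `Y⁻¹ + q Y`. -/
noncomputable def newt (q Y : K) (j : ℕ) : K := ∏ i ∈ range j, fN q Y i

/-- Ratio of consecutive coefficients of the product formula. -/
noncomputable def wf (q M : K) (i : ℕ) : K :=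
  (1 + q ^ i) * (1 - M * (q ^ i)⁻¹) * (1 - q * M * q ^ i) * (q * (q ^ i) ^ 2) * M⁻¹ /
    ((1 - q * q ^ i) ^ 3 * (1 - q * (q ^ i) ^ 2))

/-- Coefficients of the product formula in the Newton basis. -/
noncomputable def wN (q M : K) (j : ℕ) : K := ∏ i ∈ range j, wf q M i

lemma newt_zero (Y : K) : newt q Y 0 = 1 := by simp [newt]

lemma newt_succ (Y : K) (j : ℕ) : newt q Y (j + 1) = newt q Y j * fN q Y j := by
  simp [newt, prod_range_succ]

lemma wN_succ (M : K) (j : ℕ) : wN q M (j + 1) = wN q M j * wf q M j := by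
  simp [wN, prod_range_succ]

lemma newt_succ' (h0 : q ≠ 0) {Y : K} (hY : Y ≠ 0) (j : ℕ) :
    newt q Y (j + 1) = newt q Y j * (Y⁻¹ * (1 - Y * (q ^ j)⁻¹) * (1 - Y * (q * q ^ j))) := by
  rw [newt_succ, fN]
  have := pow_ne_zero j h0
  field_simp
  ring

lemma newt_up (h0 : q ≠ 0) {Y : K} (hY : Y ≠ 0) (j : ℕ) :
    newt q (q * Y) (j + 1) = newt q Y j *
      (Y⁻¹ * (q * q ^ j)⁻¹ * (1 - Y * (q * q ^ j)) * (1 - Y * (q ^ 2 * q ^ j))) := by
  induction j with
  | zero =>
    simp only [newt_succ, newt_zero, fN, pow_zero]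
    field_simp
    ring
  | succ j ih =>
    rw [newt_succ, ih, newt_succ, fN, fN, pow_succ]
    have := pow_ne_zero j h0
    field_simp
    ring

lemma newt_down (h0 : q ≠ 0) {Y : K} (hY : Y ≠ 0) (j : ℕ) :
    newt q (Y * q⁻¹) (j + 1) = newt q Y j *
      (Y⁻¹ * (q * q ^ j) * (1 - Y * (q * q ^ j)⁻¹) * (1 - Y * (q ^ j)⁻¹)) := by
  induction j with
  | zero =>
    simp only [newt_succ, newt_zero, fN, pow_zero]
    field_simp
    ring
  | succ j ih =>
    rw [newt_succ, ih, newt_succ, fN, fN, pow_succ]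
    have := pow_ne_zero j h0
    field_simp
    ring

lemma newt_shift (h0 : q ≠ 0) {Y : K} (hY : Y ≠ 0) (j : ℕ) :
    newt q (q * Y) j * (1 - q * Y * (q ^ j)⁻¹) =
      newt q Y j * ((q ^ j)⁻¹ * (1 - q * Y * q ^ j)) := by
  cases j with
  | zero => simp [newt_zero]
  | succ j =>
    rw [newt_up h0 hY, newt_succ' h0 hY]
    have := pow_ne_zero j h0
    simp only [pow_succ]
    generalize q ^ j = J at *
    field_simp

/-- `p_n` of the product formula. -/
noncomputable def pHat (q : K) (m : ℕ) (Y : K) : K :=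
  ∑ j ∈ range (m + 1), wN q (q ^ m) j * newt q Y j

/-- auxiliary -/
noncomputable def rHat (q : K) (m : ℕ) (Y : K) : K :=
  ∑ j ∈ range (m + 1), wN q (q ^ m) j * newt q Y j *
    (q ^ j * ((1 - q ^ m) + q ^ j * (1 - q * q ^ m)) * (1 - Y * (q ^ j)⁻¹) / (1 - q * (q ^ j) ^ 2))

/-- auxiliary -/
noncomputable def sHat (q : K) (m : ℕ) (Y : K) : K :=
  ∑ j ∈ range (m + 1), wN q (q ^ m) j * newt q Y j *
    (q ^ j * (q ^ m)⁻¹ * ((1 - q ^ m) * (q * q ^ j) + (1 - q * q ^ m)) * (1 - Y * (q ^ j)⁻¹) /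
      (1 - q * (q ^ j) ^ 2))

lemma rHat_shift (h0 : q ≠ 0) {Y : K} (hY : Y ≠ 0) (m : ℕ) :
    rHat q m (q * Y) = ∑ j ∈ range (m + 1), wN q (q ^ m) j * newt q Y j *
      (((1 - q ^ m) + q ^ j * (1 - q * q ^ m)) * (1 - q * Y * q ^ j) / (1 - q * (q ^ j) ^ 2)) := by
  unfold rHat
  apply sum_congr rfl
  intro j _
  have h := newt_shift h0 hY j
  have hj := pow_ne_zero j h0
  calc _ = wN q (q ^ m) j * (newt q (q * Y) j * (1 - q * Y * (q ^ j)⁻¹)) *
        (q ^ j * ((1 - q ^ m) + q ^ j * (1 - q * q ^ m)) / (1 - q * (q ^ j) ^ 2)) := by ring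
    _ = wN q (q ^ m) j * newt q Y j * ((q ^ j)⁻¹ * q ^ j) *
        (((1 - q ^ m) + q ^ j * (1 - q * q ^ m)) * (1 - q * Y * q ^ j) /
          (1 - q * (q ^ j) ^ 2)) := by rw [h]; ring
    _ = _ := by rw [inv_mul_cancel₀ hj]; ring

lemma sHat_shift (h0 : q ≠ 0) {Y : K} (hY : Y ≠ 0) (m : ℕ) :
    sHat q m (q * Y) = ∑ j ∈ range (m + 1), wN q (q ^ m) j * newt q Y j *
      ((q ^ m)⁻¹ * ((1 - q ^ m) * (q * q ^ j) + (1 - q * q ^ m)) * (1 - q * Y * q ^ j) /
        (1 - q * (q ^ j) ^ 2)) := by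
  unfold sHat
  apply sum_congr rfl
  intro j _
  have h := newt_shift h0 hY j
  have hj := pow_ne_zero j h0
  calc _ = wN q (q ^ m) j * (newt q (q * Y) j * (1 - q * Y * (q ^ j)⁻¹)) *
        (q ^ j * (q ^ m)⁻¹ * ((1 - q ^ m) * (q * q ^ j) + (1 - q * q ^ m)) /
          (1 - q * (q ^ j) ^ 2)) := by ring
    _ = wN q (q ^ m) j * newt q Y j * ((q ^ j)⁻¹ * q ^ j) *
        ((q ^ m)⁻¹ * ((1 - q ^ m) * (q * q ^ j) + (1 - q * q ^ m)) * (1 - q * Y * q ^ j) /
          (1 - q * (q ^ j) ^ 2)) := by rw [h]; ring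
    _ = _ := by rw [inv_mul_cancel₀ hj]; ring

lemma ne1 (hq : ∀ i : ℕ, 0 < i → q ^ i ≠ 1) (j : ℕ) : 1 - q * q ^ j ≠ 0 := by
  have := one_sub_ne hq (Nat.succ_pos j)
  rwa [Nat.succ_eq_add_one, pow_succ'] at this

lemma ne2 (hq : ∀ i : ℕ, 0 < i → q ^ i ≠ 1) (j : ℕ) : 1 - q * (q ^ j) ^ 2 ≠ 0 := by
  have := one_sub_ne hq (Nat.succ_pos (2 * j))
  rw [Nat.succ_eq_add_one, pow_succ'] at this
  rwa [← pow_mul, mul_comm j 2]

lemma ne3 (hq : ∀ i : ℕ, 0 < i → q ^ i ≠ 1) (j : ℕ) : 1 - q ^ 2 * (q ^ j) ^ 2 ≠ 0 := by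
  have := one_sub_ne hq (Nat.succ_pos (2 * j + 1))
  have e : q ^ (2 * j + 1).succ = q ^ 2 * (q ^ j) ^ 2 := by
    rw [← pow_mul, ← pow_add]; congr 1; omega
  rwa [e] at this

lemma r_step (h0 : q ≠ 0) (hq : ∀ i : ℕ, 0 < i → q ^ i ≠ 1) {Y : K} (hY : Y ≠ 0) (m : ℕ) :
    rHat q m (q * Y) = ((1 - q ^ m) + Y * (1 - q * q ^ m)) * pHat q m Y +
      q ^ m * sHat q m Y := by
  rw [rHat_shift h0 hY]
  unfold pHat sHat
  rw [mul_sum, mul_sum, ← sum_add_distrib]
  apply sum_congr rfl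
  intro j _
  have h2 := ne2 hq j
  have hj := pow_ne_zero j h0
  have hm := pow_ne_zero m h0
  generalize q ^ j = J at *
  generalize q ^ m = M at *
  obtain ⟨d, hd⟩ : ∃ d, d = 1 - q * J ^ 2 := ⟨_, rfl⟩
  rw [← hd] at h2 ⊢
  field_simp
  rw [hd]
  ring

lemma s_step (h0 : q ≠ 0) (hq : ∀ i : ℕ, 0 < i → q ^ i ≠ 1) {Y : K} (hY : Y ≠ 0) (m : ℕ) :
    sHat q m (q * Y) = (q ^ m)⁻¹ * ((1 - q * q ^ m) + q * Y * (1 - q ^ m)) * pHat q m Y +
      q * (q ^ m)⁻¹ * rHat q m Y := by
  rw [sHat_shift h0 hY]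
  unfold pHat rHat
  rw [mul_sum, mul_sum, ← sum_add_distrib]
  apply sum_congr rfl
  intro j _
  have h2 := ne2 hq j
  have hj := pow_ne_zero j h0
  have hm := pow_ne_zero m h0
  generalize q ^ j = J at *
  generalize q ^ m = M at *
  obtain ⟨d, hd⟩ : ∃ d, d = 1 - q * J ^ 2 := ⟨_, rfl⟩
  rw [← hd] at h2 ⊢
  field_simp
  rw [hd]
  ring

/-- The telescoping certificate. -/
noncomputable def cert (q : K) (m : ℕ) (Y : K) : ℕ → K
  | 0 => 0
  | j + 1 => -(wN q (q ^ m) (j + 1) * newt q Y j * (1 - q ^ 2 * (q ^ j) ^ 2) *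
      (1 - q * q ^ j) ^ 2 * (1 - q * Y ^ 2)) / (q ^ 2 * (q ^ j) ^ 2 * Y)

lemma cert_step (h0 : q ≠ 0) (hq : ∀ i : ℕ, 0 < i → q ^ i ≠ 1) {Y : K} (hY : Y ≠ 0) (m j : ℕ) :
    wN q (q ^ m) j * ((1 - q * Y) ^ 2 * newt q (q * Y) j - q * (1 - Y) ^ 2 * newt q (Y * q⁻¹) j -
      (((1 - q ^ m) + Y * (1 - q * q ^ m)) *
        ((q ^ m)⁻¹ * ((1 - q ^ m) * (q * q ^ j) + (1 - q * q ^ m)) * (1 - q * Y * q ^ j)) +
       ((1 - q * q ^ m) + q * Y * (1 - q ^ m)) *
        (q ^ j * (q ^ m)⁻¹ * ((1 - q ^ m) * (q * q ^ j) + (1 - q * q ^ m)) *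
          (1 - Y * (q ^ j)⁻¹))) * newt q Y j / (1 - q * (q ^ j) ^ 2)) =
    q * Y * (cert q m Y (j + 1) - cert q m Y j) := by
  have hm := pow_ne_zero m h0
  cases j with
  | zero =>
    have h1 := ne1 hq 0
    have h2 := ne2 hq 0
    simp only [cert, wN_succ, newt_zero, wf, pow_zero, mul_one, one_pow] at h1 h2 ⊢
    have h3 : 1 - q ^ 2 ≠ 0 := one_sub_ne hq (by norm_num)
    field_simp
    ring
  | succ i =>
    have hi := pow_ne_zero i h0
    have h1 := ne1 hq (i + 1)
    have h2 := ne2 hq (i + 1)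
    simp only [cert]
    rw [wN_succ (q ^ m) (i + 1), newt_up h0 hY, newt_down h0 hY, newt_succ' h0 hY]
    simp only [wf]
    rw [show q ^ (i + 1) = q * q ^ i from pow_succ' q i] at h1 h2 ⊢
    generalize wN q (q ^ m) (i + 1) = w
    generalize newt q Y i = t
    generalize q ^ i = I at *
    generalize q ^ m = M at *
    obtain ⟨d, hd⟩ : ∃ d, d = 1 - q * (q * I) ^ 2 := ⟨_, rfl⟩
    obtain ⟨e, he⟩ : ∃ e, e = 1 - q * (q * I) := ⟨_, rfl⟩
    rw [← hd] at h2 ⊢
    rw [← he] at h1 ⊢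
    field_simp
    rw [hd, he]
    ring

lemma wN_last (h0 : q ≠ 0) (m : ℕ) : wN q (q ^ m) (m + 1) = 0 := by
  rw [wN_succ, wf, mul_inv_cancel₀ (pow_ne_zero m h0)]
  simp

lemma key_identity (h0 : q ≠ 0) (hq : ∀ i : ℕ, 0 < i → q ^ i ≠ 1) {Y : K} (hY : Y ≠ 0) (m : ℕ) :
    (1 - q * Y) ^ 2 * pHat q m (q * Y) =
      ((1 - q ^ m) + Y * (1 - q * q ^ m)) * sHat q m (q * Y) +
      ((1 - q * q ^ m) + q * Y * (1 - q ^ m)) * sHat q m Y +
      q * (1 - Y) ^ 2 * pHat q m (Y * q⁻¹) := by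
  have hsum : ∑ j ∈ range (m + 1), (q * Y * (cert q m Y (j + 1) - cert q m Y j)) = 0 := by
    rw [← mul_sum, sum_range_sub]
    simp only [cert, wN_last h0]
    simp
  have h1 : ∀ j ∈ range (m + 1), wN q (q ^ m) j * newt q (q * Y) j * (1 - q * Y) ^ 2 =
      wN q (q ^ m) j * newt q Y j * ((q ^ m)⁻¹ * ((1 - q ^ m) * (q * q ^ j) + (1 - q * q ^ m)) *
        (1 - q * Y * q ^ j) / (1 - q * (q ^ j) ^ 2)) * ((1 - q ^ m) + Y * (1 - q * q ^ m)) +
      wN q (q ^ m) j * newt q Y j * (q ^ j * (q ^ m)⁻¹ * ((1 - q ^ m) * (q * q ^ j) +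
        (1 - q * q ^ m)) * (1 - Y * (q ^ j)⁻¹) / (1 - q * (q ^ j) ^ 2)) *
        ((1 - q * q ^ m) + q * Y * (1 - q ^ m)) +
      wN q (q ^ m) j * newt q (Y * q⁻¹) j * (q * (1 - Y) ^ 2) +
      q * Y * (cert q m Y (j + 1) - cert q m Y j) := by
    intro j _
    rw [← cert_step h0 hq hY m j]
    ring
  rw [sHat_shift h0 hY]
  unfold pHat sHat
  rw [mul_comm, sum_mul, sum_congr rfl h1, sum_add_distrib, sum_add_distrib, sum_add_distrib,
    hsum, ← sum_mul, ← sum_mul, ← sum_mul]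
  ring

lemma hq_inv (hq : ∀ i : ℕ, 0 < i → q ^ i ≠ 1) : ∀ i : ℕ, 0 < i → (q⁻¹) ^ i ≠ 1 := by
  intro i hi h
  apply hq i hi
  rw [inv_pow, inv_eq_one] at h
  exact h

lemma delannoy_inv_rec (h0 : q ≠ 0) (hq : ∀ i : ℕ, 0 < i → q ^ i ≠ 1) (m n : ℕ) :
    (1 - q * q ^ n) * delannoy q⁻¹ m (n + 1) =
      (q ^ m)⁻¹ * ((1 - q * q ^ m) + q * q ^ n * (1 - q ^ m)) * delannoy q⁻¹ m n +
        q * (q ^ m)⁻¹ * (1 - q ^ n) * delannoy q⁻¹ m (n - 1) := by
  have h := delannoy_rec (hq_inv hq) m n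
  simp only [inv_pow, pow_succ'] at h
  have hn := pow_ne_zero n h0
  have hm := pow_ne_zero m h0
  generalize delannoy q⁻¹ m (n + 1) = a at *
  generalize delannoy q⁻¹ m n = b at *
  generalize delannoy q⁻¹ m (n - 1) = c at *
  generalize q ^ n = Y at *
  generalize q ^ m = M at *
  field_simp at h ⊢
  linear_combination (-1) * h

lemma delannoy_rec' (hq : ∀ i : ℕ, 0 < i → q ^ i ≠ 1) (m n : ℕ) :
    (1 - q * q ^ n) * delannoy q m (n + 1) =
      ((1 - q ^ m) + q ^ n * (1 - q * q ^ m)) * delannoy q m n +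
        q ^ m * (1 - q ^ n) * delannoy q m (n - 1) := by
  have h := delannoy_rec hq m n
  simp only [pow_succ'] at h
  exact h

lemma newt_one (j : ℕ) : newt q 1 (j + 1) = 0 := by
  rw [newt]
  apply prod_eq_zero (i := 0) (by simp)
  simp [fN]

lemma product_formula (h0 : q ≠ 0) (hq : ∀ i : ℕ, 0 < i → q ^ i ≠ 1) (m n : ℕ) :
    prodP q m n = pHat q m (q ^ n) := by
  have H : ∀ n : ℕ, delannoy q m n * delannoy q⁻¹ m n = pHat q m (q ^ n) ∧
      (1 - q ^ n) ^ 2 * (delannoy q m (n - 1) * delannoy q⁻¹ m (n - 1)) =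
        (1 - q ^ n) ^ 2 * pHat q m (q ^ n * q⁻¹) ∧
      (1 - q ^ n) * (delannoy q m n * delannoy q⁻¹ m (n - 1)) = rHat q m (q ^ n) ∧
      (1 - q ^ n) * (delannoy q m (n - 1) * delannoy q⁻¹ m n) = sHat q m (q ^ n) := by
    intro n
    induction n with
    | zero =>
      have e1 : pHat q m 1 = 1 := by
        unfold pHat
        rw [sum_range_succ', sum_eq_zero]
        · simp [newt_zero, wN]
        · intro j _
          rw [newt_one]; ring
      have e2 : rHat q m 1 = 0 := by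
        unfold rHat
        rw [sum_range_succ', sum_eq_zero]
        · simp
        · intro j _
          rw [newt_one]; ring
      have e3 : sHat q m 1 = 0 := by
        unfold sHat
        rw [sum_range_succ', sum_eq_zero]
        · simp
        · intro j _
          rw [newt_one]; ring
      simp [delannoy_zero, e1, e2, e3]
    | succ n ih =>
      obtain ⟨i1, i2, i3, i4⟩ := ih
      have hY := pow_ne_zero n h0
      have hu := delannoy_rec' hq m n
      have hv := delannoy_inv_rec h0 hq m n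
      have hr := r_step h0 hq hY m
      have hs := s_step h0 hq hY m
      have hk := key_identity h0 hq hY m
      have hne := ne1 hq n
      simp only [Nat.add_sub_cancel, show q ^ (n + 1) = q * q ^ n from pow_succ' q n]
      have hm := pow_ne_zero m h0
      have hvM : q ^ m * ((1 - q * q ^ n) * delannoy q⁻¹ m (n + 1)) =
          ((1 - q * q ^ m) + q * q ^ n * (1 - q ^ m)) * delannoy q⁻¹ m n +
            q * (1 - q ^ n) * delannoy q⁻¹ m (n - 1) := by
        rw [hv]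
        have := mul_inv_cancel₀ hm
        linear_combination (((1 - q * q ^ m) + q * q ^ n * (1 - q ^ m)) * delannoy q⁻¹ m n +
            q * (1 - q ^ n) * delannoy q⁻¹ m (n - 1)) * this
      have hs' : (1 - q * q ^ n) * (delannoy q m n * delannoy q⁻¹ m (n + 1)) =
          sHat q m (q * q ^ n) := by
        rw [hs, ← i1, ← i3]
        linear_combination (delannoy q m n) * hv
      refine ⟨?_, ?_, ?_, hs'⟩
      · have h2 : (1 - q * q ^ n) ^ 2 * (delannoy q m (n + 1) * delannoy q⁻¹ m (n + 1)) =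
            (1 - q * q ^ n) ^ 2 * pHat q m (q * q ^ n) := by
          rw [hk, ← hs', ← i4]
          have i2' : q * (1 - q ^ n) ^ 2 * pHat q m (q ^ n * q⁻¹) =
              q * ((1 - q ^ n) ^ 2 * (delannoy q m (n - 1) * delannoy q⁻¹ m (n - 1))) := by
            rw [i2]; ring
          rw [i2']
          linear_combination ((1 - q * q ^ n) * delannoy q⁻¹ m (n + 1)) * hu +
            ((1 - q ^ n) * delannoy q m (n - 1)) * hvM
        exact mul_left_cancel₀ (pow_ne_zero 2 hne) h2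
      · rw [mul_comm q (q ^ n), mul_assoc, mul_inv_cancel₀ h0, mul_one, i1]
      · rw [hr, ← i1, ← i4]
        linear_combination (delannoy q⁻¹ m n) * hu
  exact (H n).1

/-! ### The basis `Phi` -/

/-- Absorption in both indices: `(1 - q^(k+1)) [n+1, k+1] = (1 - q^(n+1)) [n, k]`. -/
lemma gauss_absorb2 (hq : ∀ i : ℕ, 0 < i → q ^ i ≠ 1) (n k : ℕ) :
    (1 - q ^ (k + 1)) * gauss q (n + 1) (k + 1) = (1 - q ^ (n + 1)) * gauss q n k := by
  rcases le_or_gt k n with h | h
  · obtain ⟨d, rfl⟩ : ∃ d, n = k + d := ⟨n - k, by omega⟩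
    rw [gauss_eq hq (by omega), gauss_eq hq (by omega)]
    have e2 : k + d + 1 - (k + 1) = d := by omega
    have e3 : k + d - k = d := by omega
    rw [e2, e3, qf_succ (k + d), qf_succ k]
    have h1 := qf_ne hq k
    have h2 := qf_ne hq d
    have h3 := one_sub_ne hq (Nat.succ_pos k)
    field_simp
  · rw [gauss_of_lt h, gauss_of_lt (by omega)]; ring

/-- The symmetric basis `q^(-lk) [k,l] [k+l,l]`. -/
noncomputable def Phi (q : K) (l k : ℕ) : K := (q ^ (l * k))⁻¹ * gauss q k l * gauss q (k + l) l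

lemma phi_succ (h0 : q ≠ 0) (hq : ∀ i : ℕ, 0 < i → q ^ i ≠ 1) (l k : ℕ) :
    Phi q (l + 1) k * (1 - q ^ (l + 1)) ^ 2 = Phi q l k * fN q (q ^ k) l := by
  unfold Phi fN
  rcases lt_or_ge k l with h | h
  · rw [gauss_of_lt h, gauss_of_lt (by omega)]; ring
  · have a1 := gauss_absorb hq h
    have a2 := gauss_absorb2 hq (k + l) l
    obtain ⟨d, rfl⟩ : ∃ d, k = l + d := ⟨k - l, by omega⟩
    rw [Nat.add_sub_cancel_left] at a1
    have e : l + d + (l + 1) = l + d + l + 1 := by omega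
    rw [e]
    calc _ = (q ^ ((l + 1) * (l + d)))⁻¹ * ((1 - q ^ (l + 1)) * gauss q (l + d) (l + 1)) *
          ((1 - q ^ (l + 1)) * gauss q (l + d + l + 1) (l + 1)) := by ring
      _ = (q ^ ((l + 1) * (l + d)))⁻¹ * ((1 - q ^ d) * gauss q (l + d) l) *
          ((1 - q ^ (l + d + l + 1)) * gauss q (l + d + l) l) := by rw [a1, a2]
      _ = _ := by
        have h1 := pow_ne_zero l h0
        have h2 := pow_ne_zero d h0
        have h3 := pow_ne_zero (l * (l + d)) h0
        have p1 : q ^ ((l + 1) * (l + d)) = q ^ (l * (l + d)) * q ^ l * q ^ d := by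
          rw [← pow_add, ← pow_add]; congr 1; ring
        have p2 : q ^ (l + d + l + 1) = q * (q ^ l) ^ 2 * q ^ d := by
          rw [← pow_mul, ← pow_succ', ← pow_add]; congr 1; ring
        have p3 : q ^ (l + d) = q ^ l * q ^ d := pow_add _ _ _
        rw [p1, p2, p3]
        field_simp
        ring

lemma newt_eq_phi (h0 : q ≠ 0) (hq : ∀ i : ℕ, 0 < i → q ^ i ≠ 1) (l k : ℕ) :
    newt q (q ^ k) l = Phi q l k * qf q l ^ 2 := by
  induction l with
  | zero => simp [newt_zero, Phi, gauss_zero, qf_zero]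
  | succ l ih =>
    rw [newt_succ, ih, qf_succ]
    have := phi_succ h0 hq l k
    linear_combination (-(qf q l ^ 2)) * this

/-- `(-1;q)_j` -/
noncomputable def mp (q : K) (j : ℕ) : K := ∏ i ∈ range j, (1 + q ^ i)

/-- `(-q;q)_j` -/
noncomputable def mq (q : K) (j : ℕ) : K := ∏ i ∈ range j, (1 + q ^ (i + 1))

/-- The coefficients of the product formula. -/
noncomputable def aCo (q : K) (m j : ℕ) : K :=
  mp q j * mq q j * gauss q (m + j) (2 * j) * (q ^ (j * (m - j)))⁻¹

lemma gauss_two_step (hq : ∀ i : ℕ, 0 < i → q ^ i ≠ 1) {m j : ℕ} (h : j ≤ m) :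
    (1 - q ^ (2 * j + 1)) * (1 - q ^ (2 * j + 2)) * gauss q (m + j + 1) (2 * j + 2) =
      (1 - q ^ (m - j)) * (1 - q ^ (m + j + 1)) * gauss q (m + j) (2 * j) := by
  have a1 := gauss_absorb2 hq (m + j) (2 * j + 1)
  have a2 := gauss_absorb hq (n := m + j) (k := 2 * j) (by omega)
  have e : m + j - 2 * j = m - j := by omega
  rw [e] at a2
  linear_combination (1 - q ^ (2 * j + 1)) * a1 + (1 - q ^ (m + j + 1)) * a2

lemma wN_eq_aCo (h0 : q ≠ 0) (hq : ∀ i : ℕ, 0 < i → q ^ i ≠ 1) {m j : ℕ} (h : j ≤ m) :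
    wN q (q ^ m) j * qf q j ^ 2 = aCo q m j := by
  induction j with
  | zero => simp [wN, qf_zero, aCo, mp, mq, gauss_zero]
  | succ j ih =>
    have ih := ih (by omega)
    have g := gauss_two_step hq (m := m) (j := j) (by omega)
    have n1 : 1 - q ^ (2 * j + 1) ≠ 0 := one_sub_ne hq (Nat.succ_pos _)
    have n2 : 1 - q ^ (2 * j + 2) ≠ 0 := one_sub_ne hq (Nat.succ_pos _)
    have n3 := ne1 hq j
    have n4 := ne2 hq j
    have hj := pow_ne_zero j h0
    obtain ⟨d, rfl⟩ : ∃ d, m = j + 1 + d := ⟨m - (j + 1), by omega⟩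
    have hd := pow_ne_zero d h0
    rw [wN_succ, qf_succ]
    have step : wN q (q ^ (j + 1 + d)) j * wf q (q ^ (j + 1 + d)) j *
        (qf q j * (1 - q ^ (j + 1))) ^ 2 = aCo q (j + 1 + d) j *
        (wf q (q ^ (j + 1 + d)) j * (1 - q ^ (j + 1)) ^ 2) := by
      rw [← ih]; ring
    rw [step]
    unfold aCo
    have e1 : mp q (j + 1) = mp q j * (1 + q ^ j) := by simp [mp, prod_range_succ]
    have e2 : mq q (j + 1) = mq q j * (1 + q ^ (j + 1)) := by simp [mq, prod_range_succ]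
    have e3 : j + 1 + d + (j + 1) = j + 1 + d + j + 1 := by omega
    have e4 : 2 * (j + 1) = 2 * j + 2 := by ring
    rw [e1, e2, e3, e4]
    have e5 : j + 1 + d - j = d + 1 := by omega
    have e6 : j + 1 + d - (j + 1) = d := by omega
    rw [e5] at g ⊢
    rw [e6]
    have g' : gauss q (j + 1 + d + j + 1) (2 * j + 2) =
        (1 - q ^ (d + 1)) * (1 - q ^ (j + 1 + d + j + 1)) * gauss q (j + 1 + d + j) (2 * j) /
          ((1 - q ^ (2 * j + 1)) * (1 - q ^ (2 * j + 2))) := by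
      rw [eq_div_iff (mul_ne_zero n1 n2)]
      linear_combination g
    rw [g']
    generalize gauss q (j + 1 + d + j) (2 * j) = G
    generalize mp q j = x
    generalize mq q j = y
    unfold wf
    have p1 : q ^ (j * (d + 1)) = q ^ (j * d) * q ^ j := by rw [← pow_add]; congr 1
    have p2 : q ^ ((j + 1) * d) = q ^ (j * d) * q ^ d := by rw [← pow_add]; congr 1; ring
    have p3 : q ^ (2 * j + 1) = q * (q ^ j) ^ 2 := by rw [← pow_mul, ← pow_succ']; congr 1; ring
    have p4 : q ^ (2 * j + 2) = q ^ 2 * (q ^ j) ^ 2 := by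
      rw [← pow_mul, ← pow_add]; congr 1; ring
    have p5 : q ^ (j + 1 + d) = q * q ^ j * q ^ d := by rw [pow_add, pow_succ']
    have p6 : q ^ (j + 1 + d + j + 1) = q ^ 2 * (q ^ j) ^ 2 * q ^ d := by
      rw [← pow_mul, ← pow_add, ← pow_add]; congr 1; ring
    have p7 : q ^ (d + 1) = q * q ^ d := pow_succ' q d
    have p8 : q ^ (j + 1) = q * q ^ j := pow_succ' q j
    have hjd := pow_ne_zero (j * d) h0
    rw [p1, p2, p3, p4, p5, p6, p7, p8]
    have n5 := ne3 hq j
    generalize q ^ (j * d) = z at *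
    generalize q ^ j = J at *
    generalize q ^ d = D at *
    have n6 : 1 + q * J ≠ 0 := by
      intro hz
      apply n5
      linear_combination (1 - q * J) * hz
    obtain ⟨u, hu⟩ : ∃ u, u = 1 - q * J ^ 2 := ⟨_, rfl⟩
    obtain ⟨v, hv⟩ : ∃ v, v = 1 - q * J := ⟨_, rfl⟩
    obtain ⟨t, ht⟩ : ∃ t, t = 1 + q * J := ⟨_, rfl⟩
    have e7 : 1 - q ^ 2 * J ^ 2 = v * t := by rw [hv, ht]; ring
    rw [e7, ← hu, ← hv, ← ht]
    rw [← hu] at n4
    rw [← hv] at n3
    rw [← ht] at n6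
    field_simp

lemma prodP_eq (h0 : q ≠ 0) (hq : ∀ i : ℕ, 0 < i → q ^ i ≠ 1) (m k : ℕ) :
    prodP q m k = ∑ j ∈ range (m + 1), aCo q m j * Phi q j k := by
  rw [product_formula h0 hq]
  unfold pHat
  apply sum_congr rfl
  intro j hj
  rw [newt_eq_phi h0 hq, ← wN_eq_aCo h0 hq (Nat.lt_succ_iff.1 (mem_range.1 hj))]
  ring

/-! ### Linearisation of products -/

/-- Linearisation coefficients. -/
noncomputable def cLin (q : K) (i j l : ℕ) : K :=
  gauss q l i * gauss q l j * gauss q (i + j) l * (q ^ (l * (i + j - l)))⁻¹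

lemma cLin_mem (hq : ∀ i : ℕ, 0 < i → q ^ i ≠ 1) (i j l : ℕ) : cLin q i j l ∈ S q := by
  unfold cLin
  rw [← inv_pow]
  exact mul_mem (mul_mem (mul_mem (gauss_mem hq _ _) (gauss_mem hq _ _)) (gauss_mem hq _ _))
    (pow_mem qinv_mem _)

/-- The recursion of the linearisation coefficients. -/
lemma cLin_rec (h0 : q ≠ 0) (hq : ∀ i : ℕ, 0 < i → q ^ i ≠ 1) (i j l : ℕ)
    (hl : l + 1 ≤ i + j + 1) :
    (1 - q ^ (i + 1)) ^ 2 * cLin q (i + 1) j (l + 1) =
      cLin q i j l * (1 - q ^ (l + 1)) ^ 2 +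
        (fN q (q ^ (l + 1)) i) * cLin q i j (l + 1) := by
  unfold cLin
  rcases lt_or_ge (l + 1) j with hj | hj
  · rw [gauss_of_lt hj, gauss_of_lt (n := l) (k := j) (by omega)]; ring
  rcases lt_or_ge (l + 1) i with hi | hi
  · rw [gauss_of_lt (n := l + 1) (k := i) hi, gauss_of_lt (n := l) (k := i) (by omega),
      gauss_of_lt (n := l + 1) (k := i + 1) (by omega)]; ring
  -- now `i ≤ l + 1`, `j ≤ l + 1`
  have a1 := gauss_absorb hq hi
  have a2 := gauss_absorb' hq hi
  have a3 := gauss_absorb' hq hj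
  have a4 := gauss_pascal hq (i + j) l
  have a5 := gauss_pascal' hq (n := i + j) (k := l) (by omega)
  have e1 : i + 1 + j = i + j + 1 := by omega
  rw [e1]
  obtain ⟨a, ha⟩ : ∃ a, l + 1 = i + a := ⟨l + 1 - i, by omega⟩
  obtain ⟨b, hb⟩ : ∃ b, l + 1 = j + b := ⟨l + 1 - j, by omega⟩
  obtain ⟨c, hc⟩ : ∃ c, i + j = l + c := ⟨i + j - l, by omega⟩
  have e2 : l + 1 - i = a := by omega
  have e3 : l + 1 - j = b := by omega
  have e4 : i + j - l = c := by omega
  have e5 : i + j + 1 - (l + 1) = c := by omega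
  rw [e2] at a1 a2
  rw [e3] at a3
  rw [e4] at a5
  rw [e4, e5]
  have hN : fN q (q ^ (l + 1)) i =
      (q ^ (l + 1))⁻¹ * (1 - q ^ a) * (1 - q ^ (i + l + 2)) := by
    unfold fN
    have h1 := pow_ne_zero (l + 1) h0
    have h2 := pow_ne_zero i h0
    have h3 : q ^ (l + 1) = q ^ i * q ^ a := by rw [ha, pow_add]
    have h4 : q ^ (i + l + 2) = q * q ^ i * q ^ (l + 1) := by
      rw [← pow_succ', ← pow_add]; congr 1; omega
    rw [h4, h3]
    have h5 := pow_ne_zero a h0
    field_simp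
    ring
  rw [hN]
  cases c with
  | zero =>
    -- `l = i + j`
    have hlij : l = i + j := by omega
    rw [gauss_of_lt (n := i + j) (k := l + 1) (by omega)]
    rw [gauss_of_lt (n := i + j) (k := l + 1) (by omega)] at a4 a5
    simp only [mul_zero, pow_zero, inv_one, mul_one, zero_mul, add_zero, one_mul] at a4 a5 ⊢
    have hb' : b = i + 1 := by omega
    subst hb'
    rw [a4]
    linear_combination ((1 - q ^ (i + 1)) * gauss q (l + 1) j * gauss q (i + j) l) * a1 +
      0 * a2 - ((1 - q ^ (l + 1)) * gauss q l j * gauss q (i + j) l) * a2 -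
      ((1 - q ^ a) * gauss q (l + 1) i * gauss q (i + j) l) * a3
  | succ c =>
    have e6 : i + j - (l + 1) = c := by omega
    rw [e6]
    have hq1 := pow_ne_zero (l + 1) h0
    have hq2 := pow_ne_zero ((l + 1) * c) h0
    have hq3 := pow_ne_zero (l * (c + 1)) h0
    have hb' : b + c = i := by omega
    have p1 : q ^ ((l + 1) * (c + 1)) = q ^ ((l + 1) * c) * q ^ (l + 1) := by
      rw [← pow_add]; congr 1
    have p2 : q ^ ((l + 1) * (c + 1)) = q ^ (l * (c + 1)) * q ^ (c + 1) := by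
      rw [← pow_add]; congr 1; ring
    have p3 : q ^ (i + 1) = q ^ b * q ^ (c + 1) := by
      rw [← pow_add]; congr 1; omega
    have p4 : q ^ (i + l + 2) = q ^ (i + 1) * q ^ (l + 1) := by
      rw [← pow_add]; congr 1; omega
    have hE1 : (q ^ (l * (c + 1)))⁻¹ = (q ^ ((l + 1) * (c + 1)))⁻¹ * q ^ (c + 1) := by
      rw [p2]
      have := pow_ne_zero (c + 1) h0
      field_simp
    have hE2 : (q ^ (l + 1))⁻¹ * (q ^ ((l + 1) * c))⁻¹ = (q ^ ((l + 1) * (c + 1)))⁻¹ := by
      rw [p1]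
      field_simp
    have key : (1 - q ^ (i + 1)) * gauss q (i + j + 1) (l + 1) =
        (1 - q ^ b) * q ^ (c + 1) * gauss q (i + j) l +
          (1 - q ^ (i + l + 2)) * gauss q (i + j) (l + 1) := by
      rw [p4]
      linear_combination a5 - q ^ (i + 1) * a4 - gauss q (i + j) l * p3
    calc _ = ((1 - q ^ (i + 1)) * gauss q (l + 1) (i + 1)) * gauss q (l + 1) j *
          (q ^ ((l + 1) * (c + 1)))⁻¹ * ((1 - q ^ (i + 1)) * gauss q (i + j + 1) (l + 1)) := by
          ring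
      _ = ((1 - q ^ a) * gauss q (l + 1) i) * gauss q (l + 1) j *
          (q ^ ((l + 1) * (c + 1)))⁻¹ * ((1 - q ^ b) * q ^ (c + 1) * gauss q (i + j) l +
          (1 - q ^ (i + l + 2)) * gauss q (i + j) (l + 1)) := by rw [a1, key]
      _ = ((1 - q ^ a) * gauss q (l + 1) i) * ((1 - q ^ b) * gauss q (l + 1) j) *
          gauss q (i + j) l * ((q ^ ((l + 1) * (c + 1)))⁻¹ * q ^ (c + 1)) +
          (1 - q ^ a) * (1 - q ^ (i + l + 2)) * (gauss q (l + 1) i * gauss q (l + 1) j *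
          gauss q (i + j) (l + 1)) * (q ^ ((l + 1) * (c + 1)))⁻¹ := by ring
      _ = _ := by
          rw [← a2, ← a3, ← hE1, ← hE2]
          ring

/-- Linearisation: `Phi_i Phi_j = sum_l c(i,j,l) Phi_l`. -/
lemma phi_mul (h0 : q ≠ 0) (hq : ∀ i : ℕ, 0 < i → q ^ i ≠ 1) (i j k : ℕ) :
    Phi q i k * Phi q j k = ∑ l ∈ range (i + j + 1), cLin q i j l * Phi q l k := by
  induction i with
  | zero =>
    have h1 : ∀ l ∈ range (0 + j + 1), l ≠ j → cLin q 0 j l * Phi q l k = 0 := by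
      intro l hl hne
      have : l < j := by
        have := mem_range.1 hl
        omega
      unfold cLin
      rw [gauss_of_lt this]; ring
    rw [sum_eq_single_of_mem j (by simp) h1]
    unfold cLin
    rw [gauss_self hq, gauss_zero, zero_add, gauss_self hq, Nat.sub_self]
    simp [Phi, gauss_zero]
  | succ i ih =>
    have hne : (1 - q ^ (i + 1)) ^ 2 ≠ 0 := pow_ne_zero 2 (one_sub_ne hq (Nat.succ_pos i))
    apply mul_left_cancel₀ hne
    have hk := phi_succ h0 hq i k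
    have e1 : (1 - q ^ (i + 1)) ^ 2 * (Phi q (i + 1) k * Phi q j k) =
        fN q (q ^ k) i * (Phi q i k * Phi q j k) := by
      linear_combination (Phi q j k) * hk
    rw [e1, ih, mul_sum, mul_sum]
    -- split the Newton factor at each node
    have e2 : ∀ l ∈ range (i + j + 1), fN q (q ^ k) i * (cLin q i j l * Phi q l k) =
        cLin q i j l * (1 - q ^ (l + 1)) ^ 2 * Phi q (l + 1) k +
          fN q (q ^ l) i * cLin q i j l * Phi q l k := by
      intro l _
      have hl := phi_succ h0 hq l k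
      have hN : fN q (q ^ k) i = fN q (q ^ k) l + fN q (q ^ l) i := by
        unfold fN; ring
      rw [hN]
      linear_combination (-(cLin q i j l)) * hl
    rw [sum_congr rfl e2, sum_add_distrib]
    have e3 : i + 1 + j + 1 = (i + j + 1) + 1 := by omega
    rw [e3, sum_range_succ' (fun l => (1 - q ^ (i + 1)) ^ 2 * (cLin q (i + 1) j l * Phi q l k))]
    have z0 : cLin q (i + 1) j 0 = 0 := by
      unfold cLin
      rw [gauss_of_lt (n := 0) (k := i + 1) (by omega)]; ring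
    rw [z0]
    have e4 : ∑ l ∈ range (i + j + 1), fN q (q ^ l) i * cLin q i j l * Phi q l k =
        ∑ l ∈ range (i + j + 1), fN q (q ^ (l + 1)) i * cLin q i j (l + 1) * Phi q (l + 1) k := by
      have t1 := sum_range_succ (fun l => fN q (q ^ l) i * cLin q i j l * Phi q l k) (i + j + 1)
      have t2 := sum_range_succ' (fun l => fN q (q ^ l) i * cLin q i j l * Phi q l k) (i + j + 1)
      have z1 : cLin q i j (i + j + 1) = 0 := by
        unfold cLin
        rw [gauss_of_lt (n := i + j) (k := i + j + 1) (by omega)]; ring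
      have z2 : fN q (q ^ 0) i * cLin q i j 0 = 0 := by
        cases i with
        | zero => simp [fN]
        | succ i =>
          unfold cLin
          rw [gauss_of_lt (n := 0) (k := i + 1) (by omega)]; ring
      rw [z2] at t2
      rw [z1] at t1
      linear_combination t2 - t1
    rw [e4, ← sum_add_distrib]
    simp only [zero_mul, mul_zero, add_zero]
    apply sum_congr rfl
    intro l hl
    have := cLin_rec h0 hq i j l (by have := mem_range.1 hl; omega)
    linear_combination (-(Phi q (l + 1) k)) * this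

/-- The additive monoid spanned by the functions `c Phi_l`, `c` a nonnegative Laurent
expression. -/
def span (q : K) : AddSubmonoid (ℕ → K) :=
  AddSubmonoid.closure {f | ∃ c ∈ S q, ∃ l : ℕ, f = fun k => c * Phi q l k}

lemma gen_mem {c : K} (hc : c ∈ S q) (l : ℕ) : (fun k => c * Phi q l k) ∈ span q :=
  AddSubmonoid.subset_closure ⟨c, hc, l, rfl⟩

lemma span_mul (h0 : q ≠ 0) (hq : ∀ i : ℕ, 0 < i → q ^ i ≠ 1) {f g : ℕ → K}
    (hf : f ∈ span q) (hg : g ∈ span q) : f * g ∈ span q := by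
  induction hf using AddSubmonoid.closure_induction with
  | zero => rw [zero_mul]; exact zero_mem _
  | add x y _ _ hx hy => rw [add_mul]; exact add_mem hx hy
  | mem x hx =>
    obtain ⟨c, hc, i, rfl⟩ := hx
    induction hg using AddSubmonoid.closure_induction with
    | zero => rw [mul_zero]; exact zero_mem _
    | add x y _ _ hx hy => rw [mul_add]; exact add_mem hx hy
    | mem y hy =>
      obtain ⟨d, hd, j, rfl⟩ := hy
      have : ((fun k => c * Phi q i k) * fun k => d * Phi q j k) =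
          ∑ l ∈ range (i + j + 1), fun k => (c * d * cLin q i j l) * Phi q l k := by
        funext k
        rw [Finset.sum_apply]
        simp only [Pi.mul_apply]
        calc _ = c * d * (Phi q i k * Phi q j k) := by ring
          _ = _ := by
            rw [phi_mul h0 hq, mul_sum]
            apply sum_congr rfl
            intro l _
            ring
      rw [this]
      exact sum_mem fun l _ => gen_mem (mul_mem (mul_mem hc hd) (cLin_mem hq i j l)) l

lemma one_mem_span : (1 : ℕ → K) ∈ span q := by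
  have : (1 : ℕ → K) = fun k => 1 * Phi q 0 k := by
    funext k
    simp [Phi, gauss_zero]
  rw [this]
  exact gen_mem (one_mem _) 0

lemma span_pow (h0 : q ≠ 0) (hq : ∀ i : ℕ, 0 < i → q ^ i ≠ 1) {f : ℕ → K}
    (hf : f ∈ span q) (r : ℕ) : f ^ r ∈ span q := by
  induction r with
  | zero => rw [pow_zero]; exact one_mem_span
  | succ r ih => rw [pow_succ]; exact span_mul h0 hq ih hf

lemma mp_mem (j : ℕ) : mp q j ∈ S q :=
  prod_mem fun _ _ => add_mem (one_mem _) (pow_mem q_mem _)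

lemma mq_mem (j : ℕ) : mq q j ∈ S q :=
  prod_mem fun _ _ => add_mem (one_mem _) (pow_mem q_mem _)

lemma aCo_mem (hq : ∀ i : ℕ, 0 < i → q ^ i ≠ 1) (m j : ℕ) : aCo q m j ∈ S q := by
  unfold aCo
  rw [← inv_pow]
  exact mul_mem (mul_mem (mul_mem (mp_mem _) (mq_mem _)) (gauss_mem hq _ _)) (pow_mem qinv_mem _)

lemma prodP_mem (h0 : q ≠ 0) (hq : ∀ i : ℕ, 0 < i → q ^ i ≠ 1) (m : ℕ) :
    (fun k => prodP q m k) ∈ span q := by
  have : (fun k => prodP q m k) = ∑ j ∈ range (m + 1), fun k => aCo q m j * Phi q j k := by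
    funext k
    rw [prodP_eq h0 hq, Finset.sum_apply]
  rw [this]
  exact sum_mem fun j _ => gen_mem (aCo_mem hq m j) j

/-! ### Closed forms of the sums -/

lemma sum_phi (h0 : q ≠ 0) (hq : ∀ i : ℕ, 0 < i → q ^ i ≠ 1) (l n : ℕ) :
    ∑ k ∈ range (n + 1), (1 - q ^ (2 * k + 1)) * (q ^ k)⁻¹ * Phi q l k =
      (1 - q ^ (n + 1)) * ((q ^ ((l + 1) * n))⁻¹ * gauss q (n + 1 + l) l *
        gauss q (n + 1) (l + 1)) := by
  induction n with
  | zero =>
    rw [sum_range_one]
    cases l with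
    | zero =>
      have := gauss_self hq 1
      simp [Phi, gauss_zero, this]
    | succ l =>
      unfold Phi
      rw [gauss_of_lt (n := 0) (k := l + 1) (by omega),
        gauss_of_lt (n := 0 + 1) (k := l + 1 + 1) (by omega)]
      ring
  | succ n ih =>
    rw [sum_range_succ, ih]
    unfold Phi
    rcases lt_or_ge (n + 1) l with hl | hl
    · rw [gauss_of_lt (n := n + 1) (k := l + 1) (by omega),
        gauss_of_lt (n := n + 1) (k := l) hl,
        gauss_of_lt (n := n + 1 + 1) (k := l + 1) (by omega)]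
      ring
    · have b1 := gauss_absorb hq hl
      have b2 := gauss_absorb2 hq (n + 1) l
      have b3 := gauss_absorb' hq (n := n + 1 + l) (k := l) (by omega)
      have e1 : n + 1 + l + 1 - l = n + 2 := by omega
      have e2 : n + 1 + l + 1 = n + 1 + 1 + l := by omega
      rw [e1, e2] at b3
      obtain ⟨d, hd⟩ : ∃ d, n + 1 = l + d := ⟨n + 1 - l, by omega⟩
      have e3 : n + 1 - l = d := by omega
      rw [e3] at b1
      have hL := one_sub_ne hq (Nat.succ_pos l)
      rw [Nat.succ_eq_add_one] at hL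
      apply mul_left_cancel₀ hL
      have p1 : q ^ ((l + 1) * (n + 1)) = q ^ ((l + 1) * n) * q ^ (l + 1) := by
        rw [← pow_add]; congr 1
      have p2 : q ^ ((l + 1) * (n + 1)) = q ^ (l * (n + 1)) * q ^ (n + 1) := by
        rw [← pow_add]; congr 1; ring
      have hE1 : (q ^ ((l + 1) * n))⁻¹ = (q ^ ((l + 1) * (n + 1)))⁻¹ * q ^ (l + 1) := by
        rw [p1]
        have := pow_ne_zero (l + 1) h0
        have := pow_ne_zero ((l + 1) * n) h0
        field_simp
      have hE2 : (q ^ (n + 1))⁻¹ * (q ^ (l * (n + 1)))⁻¹ = (q ^ ((l + 1) * (n + 1)))⁻¹ := by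
        rw [p2]
        have := pow_ne_zero (n + 1) h0
        have := pow_ne_zero (l * (n + 1)) h0
        field_simp
      have p3 : q ^ (n + 1) = q ^ l * q ^ d := by rw [hd, pow_add]
      have p4 : q ^ (2 * (n + 1) + 1) = q * q ^ (n + 1) * q ^ (n + 1) := by
        rw [← pow_succ', ← pow_add]; congr 1; ring
      have p5 : q ^ (n + 1 + 1 + l) = q * q ^ (n + 1) * q ^ l := by
        rw [← pow_succ', ← pow_add]
      have p6 : q ^ (n + 2) = q * q ^ (n + 1) := by rw [← pow_succ']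
      have p7 : q ^ (n + 1 + 1) = q * q ^ (n + 1) := by rw [← pow_succ']
      have p8 : q ^ (l + 1) = q * q ^ l := pow_succ' q l
      calc _ = (1 - q ^ (n + 1)) * (q ^ ((l + 1) * n))⁻¹ * gauss q (n + 1 + l) l *
            ((1 - q ^ (l + 1)) * gauss q (n + 1) (l + 1)) +
            (1 - q ^ (l + 1)) * (1 - q ^ (2 * (n + 1) + 1)) *
              ((q ^ (n + 1))⁻¹ * (q ^ (l * (n + 1)))⁻¹) * gauss q (n + 1) l *
              gauss q (n + 1 + l) l := by ring
        _ = (q ^ ((l + 1) * (n + 1)))⁻¹ * gauss q (n + 1 + l) l * gauss q (n + 1) l *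
            ((1 - q ^ (n + 1)) * q ^ (l + 1) * (1 - q ^ d) +
              (1 - q ^ (l + 1)) * (1 - q ^ (2 * (n + 1) + 1))) := by
            rw [b1, hE1, hE2]; ring
        _ = (q ^ ((l + 1) * (n + 1)))⁻¹ * gauss q (n + 1 + l) l * gauss q (n + 1) l *
            ((1 - q ^ (n + 1 + 1 + l)) * (1 - q ^ (n + 2))) := by
            congr 1
            rw [p4, p5, p6, p8]
            have : q ^ (n + 1) * q ^ d * 1 = q ^ (n + 1) * q ^ d := mul_one _
            linear_combination (q - q * q ^ (n + 1)) * p3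
        _ = (q ^ ((l + 1) * (n + 1)))⁻¹ * gauss q (n + 1) l *
            ((1 - q ^ (n + 1 + 1 + l)) * gauss q (n + 1 + l) l) * (1 - q ^ (n + 2)) := by ring
        _ = (q ^ ((l + 1) * (n + 1)))⁻¹ * gauss q (n + 1 + 1 + l) l * (1 - q ^ (n + 1 + 1)) *
            ((1 - q ^ (n + 1 + 1)) * gauss q (n + 1) l) := by
            rw [b3]; ring
        _ = _ := by rw [← b2]; ring

lemma alt_sum_phi (h0 : q ≠ 0) (hq : ∀ i : ℕ, 0 < i → q ^ i ≠ 1) (l n : ℕ) :
    ∑ k ∈ range (n + 1), (-1) ^ (n - k) * (1 - q ^ (2 * k + 1)) * q ^ (k * (k - 1) / 2) *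
        Phi q l k =
      (1 - q ^ (n + 1)) * (q ^ ((n + 1) * n / 2) * (q ^ (l * (n + 1)))⁻¹ * gauss q n l *
        gauss q (n + 1 + l) l) := by
  induction n with
  | zero =>
    rw [sum_range_one]
    cases l with
    | zero => simp [Phi, gauss_zero]
    | succ l =>
      unfold Phi
      rw [gauss_of_lt (n := 0) (k := l + 1) (by omega)]
      ring
  | succ n ih =>
    rw [sum_range_succ]
    have hflip : ∑ k ∈ range (n + 1), (-1) ^ (n + 1 - k) * (1 - q ^ (2 * k + 1)) *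
        q ^ (k * (k - 1) / 2) * Phi q l k = -∑ k ∈ range (n + 1), (-1) ^ (n - k) *
        (1 - q ^ (2 * k + 1)) * q ^ (k * (k - 1) / 2) * Phi q l k := by
      rw [← sum_neg_distrib]
      apply sum_congr rfl
      intro k hk
      have : n + 1 - k = (n - k) + 1 := by
        have := mem_range.1 hk
        omega
      rw [this, pow_succ]
      ring
    rw [hflip, ih, Nat.sub_self]
    unfold Phi
    have t1 : (n + 1) * (n + 1 - 1) / 2 = (n + 1) * n / 2 := by simp
    have t2 : (n + 1 + 1) * (n + 1) / 2 = (n + 1) * n / 2 + (n + 1) := by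
      have := tri_succ (n + 1)
      simp only [Nat.add_sub_cancel] at this
      exact this
    rw [t1, t2]
    rcases lt_or_ge (n + 1) l with hl | hl
    · rw [gauss_of_lt (n := n + 1) (k := l) hl, gauss_of_lt (n := n) (k := l) (by omega)]
      ring
    · have b2 := gauss_absorb' hq (n := n) (k := l) hl
      have b3 := gauss_absorb' hq (n := n + 1 + l) (k := l) (by omega)
      have e1 : n + 1 + l + 1 - l = n + 2 := by omega
      have e2 : n + 1 + l + 1 = n + 1 + 1 + l := by omega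
      rw [e1, e2] at b3
      obtain ⟨d, hd⟩ : ∃ d, n + 1 = l + d := ⟨n + 1 - l, by omega⟩
      have e3 : n + 1 - l = d := by omega
      rw [e3] at b2
      have p1 : q ^ (l * (n + 1 + 1)) = q ^ (l * (n + 1)) * q ^ l := by
        rw [← pow_add]; congr 1
      have p3 : q ^ (n + 1) = q ^ l * q ^ d := by rw [hd, pow_add]
      have p4 : q ^ (2 * (n + 1) + 1) = q * q ^ (n + 1) * q ^ (n + 1) := by
        rw [← pow_succ', ← pow_add]; congr 1; ring
      have p5 : q ^ (n + 1 + 1 + l) = q * q ^ (n + 1) * q ^ l := by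
        rw [← pow_succ', ← pow_add]
      have p6 : q ^ (n + 2) = q * q ^ (n + 1) := by rw [← pow_succ']
      have p7 : q ^ (n + 1 + 1) = q * q ^ (n + 1) := by rw [← pow_succ']
      have hl0 := pow_ne_zero l h0
      have hE : q ^ (n + 1) * (q ^ (l * (n + 1 + 1)))⁻¹ = (q ^ (l * (n + 1)))⁻¹ * q ^ d := by
        rw [p1, p3]
        have := pow_ne_zero (l * (n + 1)) h0
        field_simp
      rw [pow_add q ((n + 1) * n / 2) (n + 1)]
      calc _ = q ^ ((n + 1) * n / 2) * (q ^ (l * (n + 1)))⁻¹ * gauss q (n + 1 + l) l *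
            ((1 - q ^ (2 * (n + 1) + 1)) * gauss q (n + 1) l -
              ((1 - q ^ (n + 1)) * gauss q n l)) := by ring
        _ = q ^ ((n + 1) * n / 2) * (q ^ (l * (n + 1)))⁻¹ * gauss q (n + 1 + l) l *
            gauss q (n + 1) l * (q ^ d * (1 - q ^ (n + 1 + 1 + l))) := by
            rw [b2, p4, p5]
            linear_combination (-(q ^ ((n + 1) * n / 2) * (q ^ (l * (n + 1)))⁻¹ *
              gauss q (n + 1 + l) l * gauss q (n + 1) l * q * q ^ (n + 1))) * p3
        _ = q ^ ((n + 1) * n / 2) * ((q ^ (l * (n + 1)))⁻¹ * q ^ d) * gauss q (n + 1) l *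
            ((1 - q ^ (n + 1 + 1 + l)) * gauss q (n + 1 + l) l) := by ring
        _ = _ := by rw [b3, ← hE]; ring

lemma sum_span (h0 : q ≠ 0) (hq : ∀ i : ℕ, 0 < i → q ^ i ≠ 1) {f : ℕ → K} (hf : f ∈ span q)
    (n : ℕ) : ∃ s ∈ S q, ∑ k ∈ range (n + 1), (1 - q ^ (2 * k + 1)) * (q ^ k)⁻¹ * f k =
      (1 - q ^ (n + 1)) * s := by
  induction hf using AddSubmonoid.closure_induction with
  | zero => exact ⟨0, zero_mem _, by simp⟩
  | add x y _ _ hx hy =>
    obtain ⟨s, hs, hs'⟩ := hx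
    obtain ⟨t, ht, ht'⟩ := hy
    refine ⟨s + t, add_mem hs ht, ?_⟩
    rw [mul_add, ← hs', ← ht', ← sum_add_distrib]
    apply sum_congr rfl
    intro k _
    simp only [Pi.add_apply]
    ring
  | mem x hx =>
    obtain ⟨c, hc, l, rfl⟩ := hx
    refine ⟨c * ((q⁻¹ ^ ((l + 1) * n)) * gauss q (n + 1 + l) l * gauss q (n + 1) (l + 1)),
      mul_mem hc (mul_mem (mul_mem (pow_mem qinv_mem _) (gauss_mem hq _ _)) (gauss_mem hq _ _)),
      ?_⟩
    have := sum_phi h0 hq l n
    rw [inv_pow]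
    calc _ = c * ∑ k ∈ range (n + 1), (1 - q ^ (2 * k + 1)) * (q ^ k)⁻¹ * Phi q l k := by
          rw [mul_sum]
          apply sum_congr rfl
          intro k _
          ring
      _ = _ := by rw [this]; ring

lemma alt_sum_span (h0 : q ≠ 0) (hq : ∀ i : ℕ, 0 < i → q ^ i ≠ 1) {f : ℕ → K}
    (hf : f ∈ span q) (n : ℕ) :
    ∃ s ∈ S q, ∑ k ∈ range (n + 1), (-1) ^ (n - k) * (1 - q ^ (2 * k + 1)) *
      q ^ (k * (k - 1) / 2) * f k = (1 - q ^ (n + 1)) * s := by
  induction hf using AddSubmonoid.closure_induction with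
  | zero => exact ⟨0, zero_mem _, by simp⟩
  | add x y _ _ hx hy =>
    obtain ⟨s, hs, hs'⟩ := hx
    obtain ⟨t, ht, ht'⟩ := hy
    refine ⟨s + t, add_mem hs ht, ?_⟩
    rw [mul_add, ← hs', ← ht', ← sum_add_distrib]
    apply sum_congr rfl
    intro k _
    simp only [Pi.add_apply]
    ring
  | mem x hx =>
    obtain ⟨c, hc, l, rfl⟩ := hx
    refine ⟨c * (q ^ ((n + 1) * n / 2) * (q⁻¹ ^ (l * (n + 1))) * gauss q n l *
      gauss q (n + 1 + l) l), mul_mem hc (mul_mem (mul_mem (mul_mem (pow_mem q_mem _)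
        (pow_mem qinv_mem _)) (gauss_mem hq _ _)) (gauss_mem hq _ _)), ?_⟩
    have := alt_sum_phi h0 hq l n
    rw [inv_pow]
    calc _ = c * ∑ k ∈ range (n + 1), (-1) ^ (n - k) * (1 - q ^ (2 * k + 1)) *
          q ^ (k * (k - 1) / 2) * Phi q l k := by
          rw [mul_sum]
          apply sum_congr rfl
          intro k _
          ring
      _ = _ := by rw [this]; ring

lemma exprB_mem (h0 : q ≠ 0) (hq : ∀ i : ℕ, 0 < i → q ^ i ≠ 1) (m n r : ℕ) (hn : 0 < n) :
    exprB q m n r ∈ S q := by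
  obtain ⟨n, rfl⟩ : ∃ n', n = n' + 1 := ⟨n - 1, by omega⟩
  obtain ⟨s, hs, h⟩ := sum_span h0 hq (span_pow h0 hq (prodP_mem h0 hq m) r) n
  have : exprB q m (n + 1) r = s := by
    unfold exprB
    simp only [Pi.pow_apply] at h
    rw [h, ← mul_assoc, one_div, inv_mul_cancel₀ (one_sub_ne hq (Nat.succ_pos n)), one_mul]
  rw [this]
  exact hs

lemma exprC_mem (h0 : q ≠ 0) (hq : ∀ i : ℕ, 0 < i → q ^ i ≠ 1) (m n r : ℕ) (hn : 0 < n) :
    exprC q m n r ∈ S q := by
  obtain ⟨n, rfl⟩ : ∃ n', n = n' + 1 := ⟨n - 1, by omega⟩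
  obtain ⟨s, hs, h⟩ := alt_sum_span h0 hq (span_pow h0 hq (prodP_mem h0 hq m) r) n
  have : exprC q m (n + 1) r = s := by
    unfold exprC
    simp only [Pi.pow_apply] at h
    simp only [Nat.add_sub_cancel]
    rw [h, ← mul_assoc, one_div, inv_mul_cancel₀ (one_sub_ne hq (Nat.succ_pos n)), one_mul]
  rw [this]
  exact hs

lemma geom_mem (hq : ∀ i : ℕ, 0 < i → q ^ i ≠ 1) (N : ℕ) : (1 - q ^ N) / (1 - q) ∈ S q := by
  have h1 : q ≠ 1 := by
    have := hq 1 one_pos
    rwa [pow_one] at this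
  have : (1 - q ^ N) / (1 - q) = ∑ i ∈ range N, q ^ i := by
    rw [geom_sum_eq h1, ← neg_sub (q ^ N) 1, ← neg_sub q 1, neg_div_neg_eq]
  rw [this]
  exact sum_mem fun i _ => pow_mem q_mem i

lemma coefA_mem (h0 : q ≠ 0) (hq : ∀ i : ℕ, 0 < i → q ^ i ≠ 1) {m j : ℕ} (hj : j ≤ m) :
    aCo q m j * ((1 - q ^ m) * (1 - q ^ (m + 1)) / ((1 - q ^ 2) * (1 - q ^ (j + 1)))) ∈ S q := by
  have g := gauss_two_step hq hj
  have hq1 : 1 - q ≠ 0 := by
    have := one_sub_ne hq one_pos
    rwa [pow_one] at this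
  have hq2 : 1 - q ^ 2 ≠ 0 := one_sub_ne hq (by norm_num)
  have hq3 : 1 - q ^ (j + 1) ≠ 0 := one_sub_ne hq (Nat.succ_pos j)
  cases j with
  | zero =>
    have e : aCo q m 0 * ((1 - q ^ m) * (1 - q ^ (m + 1)) / ((1 - q ^ 2) * (1 - q ^ (0 + 1)))) =
        gauss q (m + 1) 2 := by
      simp only [aCo, mp, mq, range_zero, prod_empty, gauss_zero, mul_zero, zero_mul, pow_zero,
        inv_one, mul_one, one_mul, add_zero, zero_add, pow_one, Nat.sub_zero] at g ⊢
      rw [← g]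
      field_simp
    rw [e]
    exact gauss_mem hq _ _
  | succ i =>
    have hR : mq q (i + 1) = (∏ k ∈ range i, (1 + q ^ (k + 1 + 1))) * (1 + q) := by
      unfold mq
      rw [prod_range_succ']
      simp
    have hRm : (∏ k ∈ range i, (1 + q ^ (k + 1 + 1))) ∈ S q :=
      prod_mem fun _ _ => add_mem (one_mem _) (pow_mem q_mem _)
    obtain ⟨d, hd⟩ : ∃ d, m = i + 1 + d := ⟨m - (i + 1), by omega⟩
    have e5 : m - (i + 1) = d := by omega
    rw [e5] at g
    have p1 : q ^ m = q ^ (i + 1) * q ^ d := by rw [hd, pow_add]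
    have p2 : q ^ (m + (i + 1) + 1) = q ^ (m + 1) * q ^ (i + 1) := by
      rw [← pow_add]; congr 1; omega
    have p3 : q ^ (m + 1) = q ^ (i + 1) * q ^ d * q := by rw [pow_succ, p1]
    have key : gauss q (m + (i + 1)) (2 * (i + 1)) * ((1 - q ^ m) * (1 - q ^ (m + 1))) =
        (1 - q ^ (2 * (i + 1) + 1)) * (1 - q ^ (2 * (i + 1) + 2)) *
          gauss q (m + (i + 1) + 1) (2 * (i + 1) + 2) +
        gauss q (m + (i + 1)) (2 * (i + 1)) * (q ^ d * (1 - q ^ (i + 1)) *
          (1 - q ^ (i + 1 + 1))) := by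
      rw [g, p2, p3, p1, pow_succ q (i + 1)]
      ring
    have p4 : 1 - q ^ (2 * (i + 1) + 2) = (1 - q ^ (i + 1 + 1)) * (1 + q ^ (i + 1 + 1)) := by
      have : q ^ (2 * (i + 1) + 2) = q ^ (i + 1 + 1) * q ^ (i + 1 + 1) := by
        rw [← pow_add]; congr 1; ring
      rw [this]; ring
    have e : aCo q m (i + 1) * ((1 - q ^ m) * (1 - q ^ (m + 1)) /
        ((1 - q ^ 2) * (1 - q ^ (i + 1 + 1)))) =
        mp q (i + 1) * (∏ k ∈ range i, (1 + q ^ (k + 1 + 1))) * (q⁻¹) ^ ((i + 1) * (m - (i + 1))) *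
        ((1 - q ^ (2 * (i + 1) + 1)) / (1 - q) * (1 + q ^ (i + 1 + 1)) *
          gauss q (m + (i + 1) + 1) (2 * (i + 1) + 2) +
         gauss q (m + (i + 1)) (2 * (i + 1)) * q ^ d * ((1 - q ^ (i + 1)) / (1 - q))) := by
      unfold aCo
      rw [hR, inv_pow]
      have e6 : (1 + q) / (1 - q ^ 2) = 1 / (1 - q) := by
        rw [div_eq_div_iff hq2 hq1]; ring
      calc _ = mp q (i + 1) * (∏ k ∈ range i, (1 + q ^ (k + 1 + 1))) *
            (q ^ ((i + 1) * (m - (i + 1))))⁻¹ * ((1 + q) / (1 - q ^ 2)) *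
            ((gauss q (m + (i + 1)) (2 * (i + 1)) * ((1 - q ^ m) * (1 - q ^ (m + 1)))) /
              (1 - q ^ (i + 1 + 1))) := by
            generalize 1 - q ^ 2 = a
            generalize 1 - q ^ (i + 1 + 1) = b
            ring
        _ = _ := by
          rw [e6, key, p4]
          generalize q ^ (i + 1 + 1) = z at *
          field_simp
    rw [e]
    exact mul_mem (mul_mem (mul_mem (mp_mem _) hRm) (pow_mem qinv_mem _))
      (add_mem (mul_mem (mul_mem (geom_mem hq _) (add_mem (one_mem _) (pow_mem q_mem _)))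
        (gauss_mem hq _ _)) (mul_mem (mul_mem (gauss_mem hq _ _) (pow_mem q_mem _))
          (geom_mem hq _)))

lemma exprA_mem (h0 : q ≠ 0) (hq : ∀ i : ℕ, 0 < i → q ^ i ≠ 1) (m n : ℕ) (hn : 0 < n) :
    exprA q m n ∈ S q := by
  obtain ⟨n, rfl⟩ : ∃ n', n = n' + 1 := ⟨n - 1, by omega⟩
  have hq2 : 1 - q ^ 2 ≠ 0 := one_sub_ne hq (by norm_num)
  have hqn : 1 - q ^ (n + 1) ≠ 0 := one_sub_ne hq (Nat.succ_pos n)
  have e : exprA q m (n + 1) = ∑ j ∈ range (m + 1),
      (aCo q m j * ((1 - q ^ m) * (1 - q ^ (m + 1)) / ((1 - q ^ 2) * (1 - q ^ (j + 1))))) *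
        ((q⁻¹) ^ ((j + 1) * n) * gauss q (n + 1 + j) j * gauss q n j) := by
    unfold exprA
    have h1 : ∑ k ∈ range (n + 1), (1 - q ^ (2 * k + 1)) * (q ^ k)⁻¹ * prodP q m k =
        ∑ j ∈ range (m + 1), aCo q m j * ((1 - q ^ (n + 1)) * ((q ^ ((j + 1) * n))⁻¹ *
          gauss q (n + 1 + j) j * gauss q (n + 1) (j + 1))) := by
      calc _ = ∑ k ∈ range (n + 1), ∑ j ∈ range (m + 1),
            aCo q m j * ((1 - q ^ (2 * k + 1)) * (q ^ k)⁻¹ * Phi q j k) := by
            apply sum_congr rfl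
            intro k _
            rw [prodP_eq h0 hq, mul_sum]
            apply sum_congr rfl
            intro j _
            ring
        _ = ∑ j ∈ range (m + 1), ∑ k ∈ range (n + 1),
            aCo q m j * ((1 - q ^ (2 * k + 1)) * (q ^ k)⁻¹ * Phi q j k) := sum_comm
        _ = _ := by
            apply sum_congr rfl
            intro j _
            rw [← mul_sum, sum_phi h0 hq]
    rw [h1, mul_sum]
    apply sum_congr rfl
    intro j _
    have hqj : 1 - q ^ (j + 1) ≠ 0 := one_sub_ne hq (Nat.succ_pos j)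
    have h2 := gauss_absorb2 hq n j
    have h3 : gauss q (n + 1) (j + 1) = (1 - q ^ (n + 1)) * gauss q n j / (1 - q ^ (j + 1)) := by
      rw [eq_div_iff hqj, ← h2]; ring
    rw [h3, inv_pow]
    generalize q ^ (j + 1) = z at *
    generalize q ^ (n + 1) = y at *
    field_simp
  rw [e]
  refine sum_mem fun j hj => mul_mem (coefA_mem h0 hq (Nat.lt_succ_iff.1 (mem_range.1 hj)))
    (mul_mem (mul_mem (pow_mem qinv_mem _) (gauss_mem hq _ _)) (gauss_mem hq _ _))

end General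

/-- `f` is a Laurent polynomial in the indeterminate `X` all of whose coefficients are
nonnegative integers: `f = p(X) / X ^ N` with `p` a polynomial over the natural numbers. -/
def IsNonnegLaurent (f : RatFunc ℚ) : Prop :=
  ∃ (N : ℕ) (p : Polynomial ℕ),
    f * RatFunc.X ^ N = algebraMap (Polynomial ℚ) (RatFunc ℚ) (p.map (Nat.castRingHom ℚ))

lemma ratX_pow_ne (i : ℕ) (hi : 0 < i) : (RatFunc.X : RatFunc ℚ) ^ i ≠ 1 := by
  intro h
  rw [← RatFunc.algebraMap_X, ← map_pow, ← map_one (algebraMap (Polynomial ℚ) (RatFunc ℚ))] at h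
  have h2 := RatFunc.algebraMap_injective ℚ h
  have h3 := congrArg Polynomial.natDegree h2
  simp at h3
  omega

lemma isNonnegLaurent_of_mem {f : RatFunc ℚ} (hf : f ∈ S (RatFunc.X : RatFunc ℚ)) :
    IsNonnegLaurent f := by
  have hX : (RatFunc.X : RatFunc ℚ) ≠ 0 := RatFunc.X_ne_zero
  induction hf using Subsemiring.closure_induction with
  | mem x hx =>
    rcases hx with rfl | hx
    · exact ⟨0, Polynomial.X, by simp [RatFunc.algebraMap_X]⟩
    · rw [Set.mem_singleton_iff] at hx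
      subst hx
      exact ⟨1, 1, by simp [inv_mul_cancel₀ hX]⟩
  | zero => exact ⟨0, 0, by simp⟩
  | one => exact ⟨0, 1, by simp⟩
  | add x y _ _ hx hy =>
    obtain ⟨N, p, hp⟩ := hx
    obtain ⟨M, r, hr⟩ := hy
    refine ⟨N + M, p * Polynomial.X ^ M + r * Polynomial.X ^ N, ?_⟩
    simp only [Polynomial.map_add, Polynomial.map_mul, Polynomial.map_pow, Polynomial.map_X,
      map_add, map_mul, map_pow, RatFunc.algebraMap_X, ← hp, ← hr]
    ring
  | mul x y _ _ hx hy =>
    obtain ⟨N, p, hp⟩ := hx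
    obtain ⟨M, r, hr⟩ := hy
    refine ⟨N + M, p * r, ?_⟩
    simp only [Polynomial.map_mul, map_mul, ← hp, ← hr]
    ring

/-- For all positive integers `m, n, r`, each of `A`, `B`, `C` is a Laurent polynomial in the
indeterminate `q = X` with nonnegative integer coefficients. -/
theorem main : ∀ m n r : ℕ, 0 < m → 0 < n → 0 < r →
    IsNonnegLaurent (exprA (RatFunc.X : RatFunc ℚ) m n) ∧
    IsNonnegLaurent (exprB (RatFunc.X : RatFunc ℚ) m n r) ∧
    IsNonnegLaurent (exprC (RatFunc.X : RatFunc ℚ) m n r) := by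
  intro m n r _ hn _
  exact ⟨isNonnegLaurent_of_mem (exprA_mem RatFunc.X_ne_zero ratX_pow_ne m n hn),
    isNonnegLaurent_of_mem (exprB_mem RatFunc.X_ne_zero ratX_pow_ne m n r hn),
    isNonnegLaurent_of_mem (exprC_mem RatFunc.X_ne_zero ratX_pow_ne m n r hn)⟩

end Pool.Agent.Helper54.QDelannoy
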