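import Mathlib

set_option autoImplicit false

namespace Pool.Agent.Helper54.RadoChecker

/-- Are `x, y, z` distinct elements of `[1, 53]` forming a solution of `2 a + 2 b = c + 81` in some order? -/
def valid (x y z : ℕ) : Bool :=
  (Nat.beq (2 * x + 2 * y) (z + 81) || (Nat.beq (2 * x + 2 * z) (y + 81) ||
    Nat.beq (2 * y + 2 * z) (x + 81))) &&
  (!(Nat.beq x y) && (!(Nat.beq y z) && (!(Nat.beq x z) &&
    (Nat.ble 1 x && (Nat.ble 1 y && (Nat.ble 1 z &&
      (Nat.ble x 53 && (Nat.ble y 53 && Nat.ble z 53))))))))

/-- Checker: `F0, F1, F2` are bit masks of the elements known not to have colour `0, 1, 2`.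
The stream `s` encodes a refutation tree in base `2^22`. -/
def run : ℕ → ℕ → ℕ → ℕ → ℕ → Option ℕ
  | 0, _, _, _, _ => none
  | k + 1, s, F0, F1, F2 =>
    let w := s % 4194304
    let s' := s / 4194304
    let t := w % 4
    let c := w / 4 % 4
    let x := w / 16 % 64
    let y := w / 1024 % 64
    let z := w / 65536
    bif Nat.beq t 0 then
      bif F0.testBit x && (F1.testBit x && F2.testBit x) then some s' else none
    else bif Nat.beq t 1 then
      match run k s' F0 (F1 ||| (1 <<< x)) (F2 ||| (1 <<< x)) with
      | none => none
      | some s1 =>
        match run k s1 (F0 ||| (1 <<< x)) F1 (F2 ||| (1 <<< x)) with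
        | none => none
        | some s2 => run k s2 (F0 ||| (1 <<< x)) (F1 ||| (1 <<< x)) F2
    else bif valid x y z then
      (bif Nat.beq c 0 then
        (bif (F1 &&& F2).testBit x && (F1 &&& F2).testBit y then
          run k s' (F0 ||| (1 <<< z)) F1 F2 else none)
      else bif Nat.beq c 1 then
        (bif (F0 &&& F2).testBit x && (F0 &&& F2).testBit y then
          run k s' F0 (F1 ||| (1 <<< z)) F2 else none)
      else
        (bif (F0 &&& F1).testBit x && (F0 &&& F1).testBit y then
          run k s' F0 F1 (F2 ||| (1 <<< z)) else none))
    else none

/-- A colouring with no monochromatic solution of `2 x + 2 y = z + 81` in `[1, 53]`. -/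
def Good (χ : ℕ → Fin 3) : Prop :=
  ∀ x y z : ℕ, 1 ≤ x → 1 ≤ y → 1 ≤ z → x ≤ 53 → y ≤ 53 → z ≤ 53 → x ≠ y → y ≠ z → x ≠ z →
    2 * x + 2 * y = z + 81 → ¬ (χ x = χ y ∧ χ y = χ z)

/-- The masks are correct for `χ`. -/
def Inv (χ : ℕ → Fin 3) (F0 F1 F2 : ℕ) : Prop :=
  ∀ m : ℕ, (F0.testBit m = true → χ m ≠ 0) ∧ (F1.testBit m = true → χ m ≠ 1) ∧
    (F2.testBit m = true → χ m ≠ 2)

lemma testBit_or_one_shiftLeft {F x m : ℕ} (h : (F ||| (1 <<< x)).testBit m = true) :
    F.testBit m = true ∨ m = x := by
  rw [Nat.testBit_or, Bool.or_eq_true] at h
  rcases h with h | h
  · exact Or.inl h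
  · right
    rw [Nat.one_shiftLeft, Nat.testBit_two_pow] at h
    have := of_decide_eq_true h
    exact this.symm

lemma inv_or {χ : ℕ → Fin 3} {F0 F1 F2 x : ℕ} (hi : Inv χ F0 F1 F2) (a0 a1 a2 : Bool)
    (h0 : a0 = true → χ x ≠ 0) (h1 : a1 = true → χ x ≠ 1) (h2 : a2 = true → χ x ≠ 2) :
    Inv χ (bif a0 then F0 ||| (1 <<< x) else F0) (bif a1 then F1 ||| (1 <<< x) else F1)
      (bif a2 then F2 ||| (1 <<< x) else F2) := by
  intro m
  obtain ⟨i0, i1, i2⟩ := hi m
  refine ⟨?_, ?_, ?_⟩
  · intro h
    cases a0
    · exact i0 h
    · rcases testBit_or_one_shiftLeft h with h | h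
      · exact i0 h
      · rw [h]; exact h0 rfl
  · intro h
    cases a1
    · exact i1 h
    · rcases testBit_or_one_shiftLeft h with h | h
      · exact i1 h
      · rw [h]; exact h1 rfl
  · intro h
    cases a2
    · exact i2 h
    · rcases testBit_or_one_shiftLeft h with h | h
      · exact i2 h
      · rw [h]; exact h2 rfl

lemma fin3_eq {a b c : Fin 3} (hab : a ≠ b) (hac : a ≠ c) (hbc : b ≠ c) {t : Fin 3}
    (h1 : t ≠ a) (h2 : t ≠ b) : t = c := by
  revert a b c t
  decide

lemma valid_good {χ : ℕ → Fin 3} (hg : Good χ) {x y z : ℕ} (h : valid x y z = true) :
    ¬ (χ x = χ y ∧ χ y = χ z) := by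
  unfold valid at h
  simp only [Bool.and_eq_true, Bool.or_eq_true, Bool.not_eq_true', Nat.beq_eq, Nat.ble_eq,
    ← Bool.not_eq_true] at h
  obtain ⟨he, hxy, hyz, hxz, h1, h2, h3, h4, h5, h6⟩ := h
  rintro ⟨e1, e2⟩
  rcases he with he | he | he
  · exact hg x y z h1 h2 h3 h4 h5 h6 hxy hyz hxz he ⟨e1, e2⟩
  · exact hg x z y h1 h3 h2 h4 h6 h5 hxz (Ne.symm hyz) hxy he ⟨e1.trans e2, e2.symm⟩
  · exact hg y z x h2 h3 h1 h5 h6 h4 hyz (Ne.symm hxz) (Ne.symm hxy) he
      ⟨e2, e2.symm.trans e1.symm⟩

theorem run_sound (χ : ℕ → Fin 3) (hg : Good χ) : ∀ k s F0 F1 F2 : ℕ,
    (run k s F0 F1 F2).isSome = true → Inv χ F0 F1 F2 → False := by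
  intro k
  induction k with
  | zero => intro s F0 F1 F2 h; simp [run] at h
  | succ k ih =>
    intro s F0 F1 F2 h hi
    simp only [run] at h
    generalize s % 4194304 = w at h
    generalize s / 4194304 = s' at h
    generalize w / 4 % 4 = c at h
    generalize w / 16 % 64 = x at h
    generalize w / 1024 % 64 = y at h
    generalize w / 65536 = z at h
    generalize w % 4 = t at h
    cases hb0 : Nat.beq t 0 with
    | true =>
      simp only [hb0, cond_true] at h
      cases hb : (F0.testBit x && (F1.testBit x && F2.testBit x)) with
      | false => simp [hb] at h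
      | true =>
        simp only [Bool.and_eq_true] at hb
        obtain ⟨i0, i1, i2⟩ := hi x
        exact i2 hb.2.2 (fin3_eq (by decide) (by decide) (by decide) (i0 hb.1) (i1 hb.2.1))
    | false =>
      simp only [hb0, cond_false] at h
      cases hb1 : Nat.beq t 1 with
      | true =>
        simp only [hb1, cond_true] at h
        cases r0 : run k s' F0 (F1 ||| (1 <<< x)) (F2 ||| (1 <<< x)) with
        | none => simp [r0] at h
        | some s1 =>
          simp only [r0] at h
          cases r1 : run k s1 (F0 ||| (1 <<< x)) F1 (F2 ||| (1 <<< x)) with
          | none => simp [r1] at h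
          | some s2 =>
            simp only [r1] at h
            have q0 := inv_or hi (x := x) false true true
            have q1 := inv_or hi (x := x) true false true
            have q2 := inv_or hi (x := x) true true false
            simp only [cond_true, cond_false] at q0 q1 q2
            by_cases c0 : χ x = 0
            · refine ih _ _ _ _ (by rw [r0]; rfl) (q0 ?_ ?_ ?_)
              · intro h; cases h
              · intro _; rw [c0]; decide
              · intro _; rw [c0]; decide
            · by_cases c1 : χ x = 1
              · refine ih _ _ _ _ (by rw [r1]; rfl) (q1 ?_ ?_ ?_)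
                · intro _; rw [c1]; decide
                · intro h; cases h
                · intro _; rw [c1]; decide
              · refine ih _ _ _ _ h (q2 ?_ ?_ ?_)
                · intro _; exact c0
                · intro _; exact c1
                · intro h; cases h
      | false =>
        simp only [hb1, cond_false] at h
        cases hv : valid x y z with
        | false => simp [hv] at h
        | true =>
          have hgood := valid_good hg hv
          simp only [hv, cond_true] at h
          cases hc0 : Nat.beq c 0 with
          | true =>
            simp only [hc0, cond_true] at h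
            cases hb : ((F1 &&& F2).testBit x && (F1 &&& F2).testBit y) with
            | false =>
              rw [hb] at h
              exact absurd h (by simp)
            | true =>
              simp only [hb, cond_true] at h
              simp only [Nat.testBit_and, Bool.and_eq_true] at hb
              have ex : χ x = 0 := fin3_eq (by decide) (by decide) (by decide)
                ((hi x).2.1 hb.1.1) ((hi x).2.2 hb.1.2)
              have ey : χ y = 0 := fin3_eq (by decide) (by decide) (by decide)
                ((hi y).2.1 hb.2.1) ((hi y).2.2 hb.2.2)
              have q := inv_or hi (x := z) true false false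
              simp only [cond_true, cond_false] at q
              refine ih _ _ _ _ h (q ?_ ?_ ?_)
              · intro _ hz
                exact hgood ⟨ex.trans ey.symm, ey.trans hz.symm⟩
              · intro h; cases h
              · intro h; cases h
          | false =>
            simp only [hc0, cond_false] at h
            cases hc1 : Nat.beq c 1 with
            | true =>
              simp only [hc1, cond_true] at h
              cases hb : ((F0 &&& F2).testBit x && (F0 &&& F2).testBit y) with
              | false =>
                rw [hb] at h
                exact absurd h (by simp)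
              | true =>
                simp only [hb, cond_true] at h
                simp only [Nat.testBit_and, Bool.and_eq_true] at hb
                have ex : χ x = 1 := fin3_eq (by decide) (by decide) (by decide)
                  ((hi x).1 hb.1.1) ((hi x).2.2 hb.1.2)
                have ey : χ y = 1 := fin3_eq (by decide) (by decide) (by decide)
                  ((hi y).1 hb.2.1) ((hi y).2.2 hb.2.2)
                have q := inv_or hi (x := z) false true false
                simp only [cond_true, cond_false] at q
                refine ih _ _ _ _ h (q ?_ ?_ ?_)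
                · intro h; cases h
                · intro _ hz
                  exact hgood ⟨ex.trans ey.symm, ey.trans hz.symm⟩
                · intro h; cases h
            | false =>
              simp only [hc1, cond_false] at h
              cases hb : ((F0 &&& F1).testBit x && (F0 &&& F1).testBit y) with
              | false =>
                rw [hb] at h
                exact absurd h (by simp)
              | true =>
                simp only [hb, cond_true] at h
                simp only [Nat.testBit_and, Bool.and_eq_true] at hb
                have ex : χ x = 2 := fin3_eq (by decide) (by decide) (by decide)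
                  ((hi x).1 hb.1.1) ((hi x).2.1 hb.1.2)
                have ey : χ y = 2 := fin3_eq (by decide) (by decide) (by decide)
                  ((hi y).1 hb.2.1) ((hi y).2.1 hb.2.2)
                have q := inv_or hi (x := z) false false true
                simp only [cond_true, cond_false] at q
                refine ih _ _ _ _ h (q ?_ ?_ ?_)
                · intro h; cases h
                · intro h; cases h
                · intro _ hz
                  exact hgood ⟨ex.trans ey.symm, ey.trans hz.symm⟩

end Pool.Agent.Helper54.RadoChecker
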